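import Pool.Agent.Lib.MP_0f5a55_nt.EX.Small

set_option autoImplicit false

/-!
# Characters modulo a fixed number
-/

open Complex Filter Topology

namespace P0F

variable {N : ℕ} [NeZero N]

/-- The multiplicity of `1/2 + ig` as a zero of `L(s, χ)`, `χ` a character modulo `N`. -/
noncomputable def multN (χ : DirichletCharacter ℂ N) (g : ℝ) : ℕ :=
  analyticOrderNatAt (DirichletCharacter.LFunction χ) (1/2 + g * I)

theorem exists_prim (χ : DirichletCharacter ℂ N) :
    ∃ (P : Prim) (h : P.1.1 + 1 ∣ N), χ = DirichletCharacter.changeLevel h P.1.2 := by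
  have key : ∀ d : ℕ, d = χ.conductor → ∃ (h : d ∣ N) (χ₀ : DirichletCharacter ℂ d), χ₀.IsPrimitive ∧
      χ = DirichletCharacter.changeLevel h χ₀ := by
    rintro d rfl
    exact ⟨χ.conductor_dvd_level, χ.primitiveCharacter, χ.primitiveCharacter_isPrimitive,
      χ.changeLevel_primitiveCharacter.symm⟩
  obtain ⟨n, hn⟩ := Nat.exists_eq_succ_of_ne_zero (χ.conductor_ne_zero)
  obtain ⟨h, χ₀, h1, h2⟩ := key (n + 1) hn.symm
  exact ⟨⟨⟨n, χ₀⟩, h1⟩, h, h2⟩

/-- The primitive character inducing `χ`. -/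
noncomputable def prim (χ : DirichletCharacter ℂ N) : Prim := (exists_prim χ).choose

theorem prim_dvd (χ : DirichletCharacter ℂ N) : (prim χ).1.1 + 1 ∣ N := (exists_prim χ).choose_spec.choose

theorem prim_spec (χ : DirichletCharacter ℂ N) :
    χ = DirichletCharacter.changeLevel (prim_dvd χ) (prim χ).1.2 := (exists_prim χ).choose_spec.choose_spec

theorem prim_injective : Function.Injective (prim (N := N)) := by
  intro χ ψ h
  rw [prim_spec χ, prim_spec ψ]
  have key : ∀ (P Q : Prim) (hP : P.1.1 + 1 ∣ N) (hQ : Q.1.1 + 1 ∣ N), P = Q →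
      DirichletCharacter.changeLevel hP P.1.2 = DirichletCharacter.changeLevel hQ Q.1.2 := by
    rintro P Q hP hQ rfl
    rfl
  exact key _ _ _ _ h

theorem euler_ne (a : ℂ) (ha : ‖a‖ ≤ 1) {p : ℕ} (hp : p.Prime) (s : ℂ) (hs : 0 < s.re) : 1 - a * (p : ℂ) ^ (-s) ≠ 0 := by
  intro h
  have h1 : a * (p : ℂ) ^ (-s) = 1 := (sub_eq_zero.1 h).symm
  have h2 : ‖a * (p : ℂ) ^ (-s)‖ < 1 := by
    rw [norm_mul, Complex.norm_natCast_cpow_of_pos hp.pos]
    have h3 : (p : ℝ) ^ (-s).re < 1 :=
      Real.rpow_lt_one_of_one_lt_of_neg (by exact_mod_cast hp.one_lt) (by rw [Complex.neg_re]; linarith)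
    have h4 : 0 ≤ (p : ℝ) ^ (-s).re := by positivity
    nlinarith
  rw [h1, norm_one] at h2
  exact lt_irrefl _ h2

/-- The multiplicity is the one of the primitive character. -/
theorem multN_eq (χ : DirichletCharacter ℂ N) (g : ℝ) : multN χ g = mult (prim χ) g := by
  set P := prim χ with hP
  have h1 : DirichletCharacter.LFunction χ =ᶠ[𝓝 (1/2 + g * I : ℂ)]
      (L P * fun s : ℂ => ∏ p ∈ N.primeFactors, (1 - P.1.2 p * (p : ℂ) ^ (-s))) := by
    have hne : (1/2 + g * I : ℂ) ≠ 1 := by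
      intro h
      have := congrArg Complex.re h
      norm_num at this
    filter_upwards [isOpen_compl_singleton.mem_nhds (show (1/2 + g * I : ℂ) ∈ ({1}ᶜ : Set ℂ) from hne)] with s hs
    conv_lhs => rw [prim_spec χ]
    change DirichletCharacter.LFunction _ s = DirichletCharacter.LFunction P.1.2 s * _
    exact DirichletCharacter.LFunction_changeLevel (prim_dvd χ) P.1.2 (Or.inr hs)
  have h2 : AnalyticAt ℂ (fun s : ℂ => ∏ p ∈ N.primeFactors, (1 - P.1.2 p * (p : ℂ) ^ (-s))) (1/2 + g * I) := by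
    have hd : Differentiable ℂ (fun s : ℂ => ∏ p ∈ N.primeFactors, (1 - P.1.2 p * (p : ℂ) ^ (-s))) := by
      refine Differentiable.fun_finsetProd (fun p hp => ?_)
      have : NeZero p := ⟨(Nat.prime_of_mem_primeFactors hp).ne_zero⟩
      fun_prop
    exact hd.analyticAt _
  have h3 : (∏ p ∈ N.primeFactors, (1 - P.1.2 p * (p : ℂ) ^ (-(1/2 + g * I : ℂ)))) ≠ 0 := by
    rw [Finset.prod_ne_zero_iff]
    intro p hp
    exact euler_ne _ (DirichletCharacter.norm_le_one _ _) (Nat.prime_of_mem_primeFactors hp) _ (by norm_num)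
  have h4 : AnalyticAt ℂ (L P) (1/2 + g * I) := by
    have hd : DifferentiableOn ℂ (L P) {1}ᶜ := fun s hs =>
      (DirichletCharacter.differentiableAt_LFunction P.1.2 s (Or.inl hs)).differentiableWithinAt
    refine hd.analyticAt (isOpen_compl_singleton.mem_nhds ?_)
    intro h
    have := congrArg Complex.re h
    norm_num at this
  unfold multN mult analyticOrderNatAt
  rw [analyticOrderAt_congr h1, analyticOrderAt_mul h4 h2, h2.analyticOrderAt_eq_zero.2 h3, add_zero]

/-- Functions with finite support. -/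
def fs : AddSubgroup (ℝ → ZMod 2) where
  carrier := {f | {g | f g ≠ 0}.Finite}
  zero_mem' := by simp
  add_mem' := by
    intro a b ha hb
    refine (ha.union hb).subset (fun g hg => ?_)
    by_contra hcon
    simp only [Set.mem_union, Set.mem_ofPred_eq, not_or, not_not] at hcon hg
    apply hg
    rw [Pi.add_apply, hcon.1, hcon.2, add_zero]
  neg_mem' := by
    intro a ha
    simpa using ha

theorem mem_fs {f : ℝ → ZMod 2} : f ∈ fs ↔ {g | f g ≠ 0}.Finite := Iff.rfl

/-- Functions modulo functions with finite support. -/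
abbrev Qt : Type := (ℝ → ZMod 2) ⧸ fs

theorem two_Qt (a : Qt) : 2 • a = 0 := by
  obtain ⟨f, rfl⟩ := QuotientAddGroup.mk_surjective a
  rw [← QuotientAddGroup.mk_nsmul]
  have : 2 • f = 0 := by
    funext g
    rw [Pi.smul_apply, two_nsmul, CharTwo.add_self_eq_zero]
    rfl
  rw [this]
  rfl

/-- The class of the multiplicity modulo 2. -/
noncomputable def cl (χ : DirichletCharacter ℂ N) : Qt :=
  QuotientAddGroup.mk (fun g : ℝ => if 0 < g then (multN χ g : ZMod 2) else 0)

theorem sum_cl (S : Finset (DirichletCharacter ℂ N)) :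
    ∑ χ ∈ S, cl χ = 0 ↔ {g : ℝ | 0 < g ∧ Odd (∑ χ ∈ S, multN χ g)}.Finite := by
  have h1 : ∑ χ ∈ S, cl χ = QuotientAddGroup.mk (s := fs)
      (∑ χ ∈ S, (fun g : ℝ => if 0 < g then (multN χ g : ZMod 2) else 0)) := by
    have := map_sum (QuotientAddGroup.mk' fs) (fun χ : DirichletCharacter ℂ N =>
      (fun g : ℝ => if 0 < g then (multN χ g : ZMod 2) else 0)) S
    exact this.symm
  rw [h1, QuotientAddGroup.eq_zero_iff, mem_fs]
  have h2 : {g : ℝ | (∑ χ ∈ S, (fun g : ℝ => if 0 < g then (multN χ g : ZMod 2) else 0)) g ≠ 0} =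
      {g : ℝ | 0 < g ∧ Odd (∑ χ ∈ S, multN χ g)} := by
    ext g
    simp only [Set.mem_ofPred_eq, Finset.sum_apply]
    by_cases hg : 0 < g
    · simp only [hg, if_true, true_and]
      rw [← Nat.cast_sum, Ne, ZMod.natCast_eq_zero_iff_even, Nat.not_even_iff_odd]
    · simp [hg]
  rw [h2]

/-- Sets of at most four characters modulo `N`. -/
theorem smallN (S : Finset (DirichletCharacter ℂ N)) (h0 : S.Nonempty) (h4 : S.card ≤ 4) :
    {g : ℝ | 0 < g ∧ Odd (∑ χ ∈ S, multN χ g)}.Infinite := by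
  classical
  have h := small (S.image prim) (h0.image _) (Finset.card_image_le.trans h4)
  refine h.mono (fun g hg => ⟨hg.1, ?_⟩)
  have h2 := hg.2
  rw [Finset.sum_image (fun x _ y _ hxy => prim_injective hxy)] at h2
  simpa only [multN_eq] using h2

theorem cl_small (S : Finset (DirichletCharacter ℂ N)) (h0 : S.Nonempty) (h4 : S.card ≤ 4) :
    ∑ χ ∈ S, cl χ ≠ 0 := by
  rw [Ne, sum_cl]
  exact smallN S h0 h4

end P0F
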