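import Mathlib

namespace M0F
open Finset
open scoped Pointwise

section graph
variable {V : Type*} [Fintype V] (R : V → V → Prop)

open Classical in
/-- indicator of the relation -/
noncomputable def ed (x y : V) : ℝ := if R x y then 1 else 0

theorem ed_nonneg (x y : V) : 0 ≤ ed R x y := by
  unfold ed; split_ifs <;> norm_num

theorem ed_le (x y : V) : ed R x y ≤ 1 := by
  unfold ed; split_ifs <;> norm_num

theorem sum_le_card (s : Finset V) {F : V → ℝ} {c : ℝ} (h : ∀ x, F x ≤ c) :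
    ∑ x ∈ s, F x ≤ s.card * c := by
  calc ∑ x ∈ s, F x ≤ ∑ _x ∈ s, c := Finset.sum_le_sum fun x _ => h x
    _ = s.card * c := by rw [Finset.sum_const, nsmul_eq_mul]

theorem card_le (s : Finset V) : (s.card : ℝ) ≤ Fintype.card V := by
  exact_mod_cast Finset.card_le_univ s

/-- **Graph lemma of Balog-Szemeredi-Gowers** with paths of length three. -/
theorem bsg_paths [Nonempty V] {α : ℝ} (hα : 0 < α)
    (hE : α * (Fintype.card V : ℝ) ^ 2 ≤ ∑ x, ∑ y, ed R x y) :
    ∃ X Y : Finset V, α / 6 * Fintype.card V ≤ X.card ∧ α / 4 * Fintype.card V ≤ Y.card ∧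
      ∀ x ∈ X, ∀ y ∈ Y, α ^ 5 / 3072 * (Fintype.card V : ℝ) ^ 2 ≤
        ∑ x1, ∑ y1, ed R x y1 * ed R x1 y1 * ed R x1 y := by
  classical
  set N : ℝ := (Fintype.card V : ℝ) with hN
  have hN0 : 0 < N := by
    exact Nat.cast_pos.2 Fintype.card_pos
  have hcu : ((Finset.univ : Finset V).card : ℝ) = N := by rw [Finset.card_univ]
  set e := ed R with he
  have e0 : ∀ x y, 0 ≤ e x y := ed_nonneg R
  have e1 : ∀ x y, e x y ≤ 1 := ed_le R
  set β : ℝ := α ^ 3 / 128 with hβ
  have hβ0 : 0 < β := by positivity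
  -- degrees
  set dg : V → ℝ := fun x => ∑ y, e x y with hdg
  set cd : V → V → ℝ := fun x x' => ∑ y, e x y * e x' y with hcd
  set X0 : Finset V := univ.filter fun x => α / 2 * N ≤ dg x with hX0
  have hsum0 : α / 2 * N ^ 2 ≤ ∑ x ∈ X0, dg x := by
    have h1 : ∑ x, dg x = ∑ x ∈ X0, dg x + ∑ x ∈ univ.filter (fun x => ¬ (α / 2 * N ≤ dg x)), dg x :=
      (Finset.sum_filter_add_sum_filter_not _ _ _).symm
    have h2 : ∑ x ∈ univ.filter (fun x => ¬ (α / 2 * N ≤ dg x)), dg x ≤ N * (α / 2 * N) := by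
      calc ∑ x ∈ univ.filter (fun x => ¬ (α / 2 * N ≤ dg x)), dg x
          ≤ ∑ _x ∈ univ.filter (fun x => ¬ (α / 2 * N ≤ dg x)), α / 2 * N :=
            Finset.sum_le_sum fun x hx => (not_le.1 (Finset.mem_filter.1 hx).2).le
        _ = (univ.filter (fun x => ¬ (α / 2 * N ≤ dg x))).card * (α / 2 * N) := by
            rw [Finset.sum_const, nsmul_eq_mul]
        _ ≤ N * (α / 2 * N) := mul_le_mul_of_nonneg_right (card_le _) (by positivity)
    have h3 : α * N ^ 2 ≤ ∑ x, dg x := hE
    nlinarith only [h1, h2, h3]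
  -- the neighbourhoods
  set u : V → ℝ := fun y => ∑ x ∈ X0, e x y with hu
  set bad : V → ℝ := fun y => ∑ x ∈ X0, ∑ x' ∈ X0,
    (if cd x x' < β * N then e x y * e x' y else 0) with hbad
  have hu1 : α / 2 * N ^ 2 ≤ ∑ y, u y := by
    have : ∑ y, u y = ∑ x ∈ X0, dg x := Finset.sum_comm
    rw [this]; exact hsum0
  have hu2 : α ^ 2 / 4 * N ^ 3 ≤ ∑ y, u y ^ 2 := by
    have h1 : (∑ y, u y) ^ 2 ≤ N * ∑ y, u y ^ 2 := by
      have := sq_sum_le_card_mul_sum_sq (s := (univ : Finset V)) (f := u)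
      rwa [hcu] at this
    have h2 : (α / 2 * N ^ 2) ^ 2 ≤ (∑ y, u y) ^ 2 := pow_le_pow_left₀ (by positivity) hu1 2
    have h3 : N * (α ^ 2 / 4 * N ^ 3) ≤ N * ∑ y, u y ^ 2 := by
      calc N * (α ^ 2 / 4 * N ^ 3) = (α / 2 * N ^ 2) ^ 2 := by ring
        _ ≤ _ := h2.trans h1
    exact le_of_mul_le_mul_left h3 hN0
  have hbs : ∑ y, bad y ≤ N ^ 2 * (β * N) := by
    have h1 : ∑ y, bad y = ∑ x ∈ X0, ∑ x' ∈ X0, (if cd x x' < β * N then cd x x' else 0) := by
      rw [hbad]
      rw [Finset.sum_comm]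
      refine Finset.sum_congr rfl fun x _ => ?_
      rw [Finset.sum_comm]
      refine Finset.sum_congr rfl fun x' _ => ?_
      by_cases h : cd x x' < β * N
      · simp only [h, if_true]; rfl
      · simp only [h, if_false, Finset.sum_const_zero]
    rw [h1]
    have h2 : ∀ x x' : V, (if cd x x' < β * N then cd x x' else 0) ≤ β * N := by
      intro x x'
      split_ifs with h
      · exact h.le
      · positivity
    calc ∑ x ∈ X0, ∑ x' ∈ X0, (if cd x x' < β * N then cd x x' else 0)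
        ≤ X0.card * (N * (β * N)) := by
          refine sum_le_card X0 fun x => ?_
          exact (sum_le_card X0 (h2 x)).trans (mul_le_mul_of_nonneg_right (card_le _) (by positivity))
      _ ≤ N * (N * (β * N)) := mul_le_mul_of_nonneg_right (card_le _) (by positivity)
      _ = N ^ 2 * (β * N) := by ring
  -- a good vertex
  obtain ⟨y0, hy0⟩ : ∃ y, α ^ 2 / 8 * N ^ 2 ≤ u y ^ 2 - 16 / α * bad y := by
    by_contra hcon
    push Not at hcon
    have h1 : ∑ y, (u y ^ 2 - 16 / α * bad y) < ∑ _y : V, α ^ 2 / 8 * N ^ 2 :=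
      Finset.sum_lt_sum_of_nonempty univ_nonempty fun y _ => hcon y
    rw [Finset.sum_sub_distrib, ← Finset.mul_sum, Finset.sum_const, nsmul_eq_mul, hcu] at h1
    have h2 : 16 / α * ∑ y, bad y ≤ 16 / α * (N ^ 2 * (β * N)) :=
      mul_le_mul_of_nonneg_left hbs (by positivity)
    have h3 : 16 / α * (N ^ 2 * (β * N)) = α ^ 2 / 8 * N ^ 3 := by
      rw [hβ]; field_simp; ring
    nlinarith only [h1, h2, h3, hu2]
  have hbad0 : 0 ≤ bad y0 := by
    refine Finset.sum_nonneg fun x _ => Finset.sum_nonneg fun x' _ => ?_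
    split_ifs
    · exact mul_nonneg (e0 _ _) (e0 _ _)
    · exact le_refl _
  set X1 : Finset V := X0.filter fun x => R x y0 with hX1
  have hX1c : (X1.card : ℝ) = u y0 := by
    rw [hX1, hu]
    simp only [he, ed]
    rw [Finset.sum_boole]
  have hX1sq : α ^ 2 / 8 * N ^ 2 ≤ (X1.card : ℝ) ^ 2 := by
    rw [hX1c]
    have : 0 ≤ 16 / α * bad y0 := by positivity
    linarith only [this, hy0]
  have hX1N : α / 3 * N ≤ X1.card := by
    have h1 : (α / 3 * N) ^ 2 ≤ (X1.card : ℝ) ^ 2 := by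
      refine le_trans ?_ hX1sq
      have : 0 ≤ α ^ 2 * N ^ 2 := by positivity
      nlinarith only [this]
    exact le_of_sq_le_sq h1 (by positivity)
  have hX1pos : (0:ℝ) < X1.card := lt_of_lt_of_le (by positivity) hX1N
  -- the number of bad partners
  set b : V → ℝ := fun x => ∑ x' ∈ X1, (if cd x x' < β * N then (1:ℝ) else 0) with hb
  have hbsum : ∑ x ∈ X1, b x = bad y0 := by
    rw [hbad, hX1, Finset.sum_filter]
    refine Finset.sum_congr rfl fun x _ => ?_
    by_cases hx : R x y0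
    · rw [if_pos hx, hb]
      simp only
      rw [hX1, Finset.sum_filter]
      refine Finset.sum_congr rfl fun x' _ => ?_
      have hx1 : e x y0 = 1 := by simp only [he, ed, if_pos hx]
      by_cases hx' : R x' y0
      · have hx2 : e x' y0 = 1 := by simp only [he, ed, if_pos hx']
        rw [if_pos hx', hx1, hx2, one_mul]
      · have hx2 : e x' y0 = 0 := by simp only [he, ed, if_neg hx']
        rw [if_neg hx', hx2, mul_zero, ite_self]
    · rw [if_neg hx]
      have hx1 : e x y0 = 0 := by simp only [he, ed, if_neg hx]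
      symm
      refine Finset.sum_eq_zero fun x' _ => ?_
      rw [hx1, zero_mul, ite_self]
  have hbb : bad y0 ≤ α / 16 * (X1.card : ℝ) ^ 2 := by
    have h1 : 16 / α * bad y0 ≤ (X1.card : ℝ) ^ 2 := by
      rw [hX1c]
      have : 0 ≤ α ^ 2 / 8 * N ^ 2 := by positivity
      linarith only [this, hy0]
    have h2 : α / 16 * (16 / α) = 1 := by
      clear * - hα
      field_simp
    calc bad y0 = α / 16 * (16 / α) * bad y0 := by rw [h2, one_mul]
      _ = α / 16 * (16 / α * bad y0) := by ring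
      _ ≤ _ := mul_le_mul_of_nonneg_left h1 (by positivity)
  have hb0 : ∀ x, 0 ≤ b x := fun x => Finset.sum_nonneg fun x' _ => by split_ifs <;> norm_num
  set X : Finset V := X1.filter fun x => b x ≤ α / 8 * X1.card with hX
  have hXc : (X1.card : ℝ) / 2 ≤ X.card := by
    have h1 : ∑ x ∈ X1.filter (fun x => ¬ (b x ≤ α / 8 * X1.card)), b x ≤ bad y0 := by
      rw [← hbsum]
      exact Finset.sum_le_sum_of_subset_of_nonneg (Finset.filter_subset _ _) fun x _ _ => hb0 x
    have h2 : ((X1.filter (fun x => ¬ (b x ≤ α / 8 * X1.card))).card : ℝ) * (α / 8 * X1.card) ≤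
        ∑ x ∈ X1.filter (fun x => ¬ (b x ≤ α / 8 * X1.card)), b x := by
      rw [← nsmul_eq_mul, ← Finset.sum_const]
      exact Finset.sum_le_sum fun x hx => (not_le.1 (Finset.mem_filter.1 hx).2).le
    have h3 : (X1.card : ℝ) = X.card + (X1.filter (fun x => ¬ (b x ≤ α / 8 * X1.card))).card := by
      have := Finset.card_filter_add_card_filter_not (s := X1) (fun x => b x ≤ α / 8 * X1.card)
      rw [← hX] at this
      exact_mod_cast this.symm
    have h4 : ((X1.filter (fun x => ¬ (b x ≤ α / 8 * X1.card))).card : ℝ) ≤ X1.card / 2 := by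
      have h5 : ((X1.filter (fun x => ¬ (b x ≤ α / 8 * X1.card))).card : ℝ) * (α / 8 * X1.card) ≤
          X1.card / 2 * (α / 8 * X1.card) := by
        refine (h2.trans (h1.trans hbb)).trans (le_of_eq (by ring))
      exact le_of_mul_le_mul_right h5 (mul_pos (by linarith only [hα]) hX1pos)
    linarith only [h3, h4]
  set d1 : V → ℝ := fun y => ∑ x ∈ X1, e x y with hd1
  have hd1le : ∀ y, d1 y ≤ X1.card := fun y => by
    have := sum_le_card X1 (F := fun x => e x y) (c := 1) (fun x => e1 x y)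
    rwa [mul_one] at this
  have hd1sum : X1.card * (α / 2 * N) ≤ ∑ y, d1 y := by
    have h1 : ∑ y, d1 y = ∑ x ∈ X1, dg x := Finset.sum_comm
    rw [h1, ← nsmul_eq_mul, ← Finset.sum_const]
    refine Finset.sum_le_sum fun x hx => ?_
    exact (Finset.mem_filter.1 (Finset.mem_filter.1 hx).1).2
  set Y : Finset V := univ.filter fun y => α / 4 * X1.card ≤ d1 y with hY
  have hYc : α / 4 * N ≤ Y.card := by
    have h1 : ∑ y, d1 y = ∑ y ∈ Y, d1 y + ∑ y ∈ univ.filter (fun y => ¬ (α / 4 * X1.card ≤ d1 y)), d1 y :=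
      (Finset.sum_filter_add_sum_filter_not _ _ _).symm
    have h2 : ∑ y ∈ univ.filter (fun y => ¬ (α / 4 * X1.card ≤ d1 y)), d1 y ≤
        N * (α / 4 * X1.card) := by
      calc ∑ y ∈ univ.filter (fun y => ¬ (α / 4 * X1.card ≤ d1 y)), d1 y
          ≤ ∑ _y ∈ univ.filter (fun y => ¬ (α / 4 * X1.card ≤ d1 y)), α / 4 * X1.card :=
            Finset.sum_le_sum fun y hy => (not_le.1 (Finset.mem_filter.1 hy).2).le
        _ = (univ.filter (fun y => ¬ (α / 4 * X1.card ≤ d1 y))).card * (α / 4 * X1.card) := by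
            rw [Finset.sum_const, nsmul_eq_mul]
        _ ≤ N * (α / 4 * X1.card) := mul_le_mul_of_nonneg_right (card_le _) (by positivity)
    have h3 : ∑ y ∈ Y, d1 y ≤ Y.card * X1.card := sum_le_card Y hd1le
    have h4 : X1.card * (α / 4 * N) ≤ X1.card * (Y.card : ℝ) := by
      nlinarith only [h1, h2, h3, hd1sum]
    exact le_of_mul_le_mul_left h4 hX1pos
  refine ⟨X, Y, by linarith only [hXc, hX1N], hYc, fun x hx y hy => ?_⟩
  have hxb : b x ≤ α / 8 * X1.card := (Finset.mem_filter.1 hx).2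
  have hyd : α / 4 * X1.card ≤ d1 y := (Finset.mem_filter.1 hy).2
  -- for each x1 in X1
  have hpt : ∀ x1 ∈ X1, (e x1 y - (if cd x x1 < β * N then (1:ℝ) else 0)) * (β * N) ≤
      ∑ y1, e x y1 * e x1 y1 * e x1 y := by
    intro x1 _
    have h1 : ∑ y1, e x y1 * e x1 y1 * e x1 y = cd x x1 * e x1 y := by
      rw [hcd]; simp only; rw [Finset.sum_mul]
    rw [h1]
    have hcd0 : 0 ≤ cd x x1 := Finset.sum_nonneg fun y1 _ => mul_nonneg (e0 _ _) (e0 _ _)
    by_cases h : cd x x1 < β * N
    · rw [if_pos h]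
      have h2 : (e x1 y - 1) * (β * N) ≤ 0 :=
        mul_nonpos_of_nonpos_of_nonneg (by linarith only [e1 x1 y]) (by positivity)
      exact h2.trans (mul_nonneg hcd0 (e0 _ _))
    · rw [if_neg h, sub_zero, mul_comm]
      exact mul_le_mul_of_nonneg_right (not_lt.1 h) (e0 _ _)
  have h1 : (d1 y - b x) * (β * N) ≤ ∑ x1 ∈ X1, ∑ y1, e x y1 * e x1 y1 * e x1 y := by
    rw [hd1, hb]
    simp only
    rw [← Finset.sum_sub_distrib, Finset.sum_mul]
    exact Finset.sum_le_sum hpt
  have h2 : ∑ x1 ∈ X1, ∑ y1, e x y1 * e x1 y1 * e x1 y ≤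
      ∑ x1, ∑ y1, e x y1 * e x1 y1 * e x1 y :=
    Finset.sum_le_sum_of_subset_of_nonneg (Finset.subset_univ _) fun x1 _ _ =>
      Finset.sum_nonneg fun y1 _ => mul_nonneg (mul_nonneg (e0 _ _) (e0 _ _)) (e0 _ _)
  refine le_trans ?_ (h1.trans h2)
  have h3 : α / 8 * (α / 3 * N) ≤ d1 y - b x := by
    have : α / 8 * (α / 3 * N) ≤ α / 8 * X1.card := mul_le_mul_of_nonneg_left hX1N (by positivity)
    linarith only [this, hxb, hyd]
  calc α ^ 5 / 3072 * N ^ 2 = α / 8 * (α / 3 * N) * (β * N) := by rw [hβ]; ring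
    _ ≤ _ := mul_le_mul_of_nonneg_right h3 (by positivity)

end graph


section pop
variable {V : Type*} [AddCommGroup V] [Fintype V] [DecidableEq V]
  {A : Type*} [AddCommGroup A] [DecidableEq A]

theorem eq_of_add_eq_zero' (hA : ∀ a : A, 2 • a = 0) {a b : A} (h : a + b = 0) : a = b := by
  have h1 := hA b
  rw [two_nsmul] at h1
  have h2 : a + b = b + b := h.trans h1.symm
  exact add_right_cancel h2

theorem add_self' (hA : ∀ a : A, 2 • a = 0) (a : A) : a + a = 0 := by
  rw [← two_nsmul]; exact hA a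

/-- number of representations of `c` at difference `h` -/
noncomputable def rp (f : V → A) (h : V) (c : A) : ℝ :=
  ((univ.filter fun z => f z + f (z + h) = c).card : ℝ)

theorem rp_le (f : V → A) (h : V) (c : A) : rp f h c ≤ Fintype.card V := card_le _

theorem rp_nonneg (f : V → A) (h : V) (c : A) : 0 ≤ rp f h c := Nat.cast_nonneg _

/-- popular pairs -/
def PR (f : V → A) (t : ℝ) (x y : V) : Prop := t ≤ rp f (y - x) (f x + f y)

open Classical in
/-- popular differences -/
noncomputable def PD (f : V → A) (t : ℝ) : Finset (V × A) :=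
  (univ.filter fun p : V × V => PR f t p.1 p.2).image fun p => (p.2 - p.1, f p.1 + f p.2)

theorem mem_PD {f : V → A} {t : ℝ} {x y : V} (h : PR f t x y) :
    (y - x, f x + f y) ∈ PD f t := by
  classical
  exact Finset.mem_image.2 ⟨(x, y), Finset.mem_filter.2 ⟨Finset.mem_univ _, h⟩, rfl⟩

theorem PD_card (f : V → A) (t : ℝ) :
    ((PD f t).card : ℝ) * t ≤ (Fintype.card V : ℝ) ^ 2 := by
  classical
  have h1 : ∀ p ∈ PD f t, t ≤ rp f p.1 p.2 := by
    intro p hp
    obtain ⟨q, hq, rfl⟩ := Finset.mem_image.1 hp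
    exact (Finset.mem_filter.1 hq).2
  have h2 : ((PD f t).card : ℝ) * t ≤ ∑ p ∈ PD f t, rp f p.1 p.2 := by
    rw [← nsmul_eq_mul, ← Finset.sum_const]
    exact Finset.sum_le_sum h1
  refine h2.trans ?_
  have h3 : ∑ p ∈ PD f t, rp f p.1 p.2 =
      (((PD f t).sigma fun p => univ.filter fun z => f z + f (z + p.1) = p.2).card : ℝ) := by
    rw [Finset.card_sigma]
    push_cast
    rfl
  rw [h3]
  have h4 : ((PD f t).sigma fun p => univ.filter fun z => f z + f (z + p.1) = p.2).card ≤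
      (univ : Finset (V × V)).card := by
    refine Finset.card_le_card_of_injOn (fun s => (s.1.1, s.2)) (fun _ _ => Finset.mem_coe.2 (Finset.mem_univ _)) ?_
    rintro ⟨⟨h, c⟩, z⟩ hs ⟨⟨h', c'⟩, z'⟩ hs' heq
    simp only [Prod.mk.injEq] at heq
    obtain ⟨rfl, rfl⟩ := heq
    have e1 := (Finset.mem_filter.1 (Finset.mem_sigma.1 (Finset.mem_coe.1 hs)).2).2
    have e2 := (Finset.mem_filter.1 (Finset.mem_sigma.1 (Finset.mem_coe.1 hs')).2).2
    simp only at e1 e2
    subst e1
    subst e2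
    rfl
  rw [Finset.card_univ, Fintype.card_prod] at h4
  calc (((PD f t).sigma fun p => univ.filter fun z => f z + f (z + p.1) = p.2).card : ℝ)
      ≤ ((Fintype.card V * Fintype.card V : ℕ) : ℝ) := by exact_mod_cast h4
    _ = _ := by push_cast; ring

/-- the graph over a set -/
noncomputable def Gr (f : V → A) (S : Finset V) : Finset (V × A) := S.image fun x => (x, f x)

theorem Gr_card (f : V → A) (S : Finset V) : (Gr f S).card = S.card := by
  exact Finset.card_image_of_injective _ fun x y h => (Prod.mk.injEq _ _ _ _ ▸ h).1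

/-- number of the differences -/
theorem diff_card (hA : ∀ a : A, 2 • a = 0) (f : V → A) {t c : ℝ} {X Y : Finset V}
    (hc : ∀ x ∈ X, ∀ y ∈ Y, c ≤ ∑ x1, ∑ y1, ed (PR f t) x y1 * ed (PR f t) x1 y1 * ed (PR f t) x1 y) :
    (((Gr f X) - (Gr f Y)).card : ℝ) * c ≤ ((PD f t).card : ℝ) ^ 3 := by
  classical
  set P := PD f t with hP
  set D := Gr f X - Gr f Y with hD
  set T : Finset ((V × A) × (V × A) × (V × A)) := P ×ˢ (P ×ˢ P) with hT
  set F : (V × A) × (V × A) × (V × A) → V × A := fun q => -(q.1 - q.2.1 + q.2.2) with hF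
  have key : ∀ d ∈ D, c ≤ ((T.filter fun q => F q = d).card : ℝ) := by
    intro d hd
    obtain ⟨gx, hgx, gy, hgy, rfl⟩ := Finset.mem_sub.1 hd
    obtain ⟨x, hx, rfl⟩ := Finset.mem_image.1 hgx
    obtain ⟨y, hy, rfl⟩ := Finset.mem_image.1 hgy
    refine (hc x hx y hy).trans ?_
    have h1 : ∑ x1, ∑ y1, ed (PR f t) x y1 * ed (PR f t) x1 y1 * ed (PR f t) x1 y =
        ((univ.filter fun p : V × V => PR f t x p.2 ∧ PR f t p.1 p.2 ∧ PR f t p.1 y).card : ℝ) := by
      rw [← Finset.sum_boole, Fintype.sum_prod_type]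
      refine Finset.sum_congr rfl fun x1 _ => Finset.sum_congr rfl fun y1 _ => ?_
      unfold ed
      by_cases a1 : PR f t x y1 <;> by_cases a2 : PR f t x1 y1 <;> by_cases a3 : PR f t x1 y <;>
        simp [a1, a2, a3]
    rw [h1]
    have h2 : (univ.filter fun p : V × V => PR f t x p.2 ∧ PR f t p.1 p.2 ∧ PR f t p.1 y).card ≤
        (T.filter fun q => F q = (x, f x) - (y, f y)).card := by
      refine Finset.card_le_card_of_injOn
        (fun p => ((p.2 - x, f x + f p.2), (p.2 - p.1, f p.1 + f p.2), (y - p.1, f p.1 + f y))) ?_ ?_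
      · intro p hp
        obtain ⟨a1, a2, a3⟩ := (Finset.mem_filter.1 (Finset.mem_coe.1 hp)).2
        refine Finset.mem_coe.2 (Finset.mem_filter.2 ⟨?_, ?_⟩)
        · exact Finset.mem_product.2 ⟨mem_PD a1, Finset.mem_product.2 ⟨mem_PD a2, mem_PD a3⟩⟩
        · simp only [hF]
          refine Prod.ext ?_ ?_
          · simp only [Prod.fst_neg, Prod.fst_add, Prod.fst_sub]
            abel
          · simp only [Prod.snd_neg, Prod.snd_add, Prod.snd_sub]
            have b1 : f y + f y = 0 := add_self' hA _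
            have b2 : f x + f x = 0 := add_self' hA _
            have : -(f x + f p.2 - (f p.1 + f p.2) + (f p.1 + f y)) =
              f x - f y - (f x + f x) := by abel
            rw [this, b2, sub_zero]
      · rintro ⟨x1, y1⟩ _ ⟨x2, y2⟩ _ heq
        simp only [Prod.mk.injEq] at heq
        obtain ⟨⟨e1, -⟩, -, ⟨e2, -⟩⟩ := heq
        have e3 : y1 = y2 := sub_left_injective e1
        have e4 : x1 = x2 := sub_right_injective e2
        rw [e3, e4]
    exact_mod_cast h2
  have h3 : ((D.card : ℝ)) * c ≤ ∑ d ∈ D, ((T.filter fun q => F q = d).card : ℝ) := by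
    rw [← nsmul_eq_mul, ← Finset.sum_const]
    exact Finset.sum_le_sum key
  refine h3.trans ?_
  have h4 : ∑ d ∈ D, (T.filter fun q => F q = d).card ≤ T.card := by
    have : ∑ d ∈ D, (T.filter fun q => F q = d).card = (T.filter fun q => F q ∈ D).card := by
      rw [Finset.card_eq_sum_card_fiberwise (f := F) (t := D) (s := T.filter fun q => F q ∈ D)
        (fun q hq => Finset.mem_coe.2 (Finset.mem_filter.1 (Finset.mem_coe.1 hq)).2)]
      refine Finset.sum_congr rfl fun d hd => ?_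
      congr 1
      ext q
      simp only [Finset.mem_filter]
      constructor
      · rintro ⟨a, rfl⟩
        exact ⟨⟨a, hd⟩, rfl⟩
      · rintro ⟨⟨a, _⟩, b⟩
        exact ⟨a, b⟩
    rw [this]
    exact Finset.card_filter_le _ _
  have h5 : (T.card : ℝ) = (P.card : ℝ) ^ 3 := by
    rw [hT, Finset.card_product, Finset.card_product]
    push_cast; ring
  rw [← h5]
  exact_mod_cast h4


/-- the sum of the values of `rp` along the pairs -/
theorem sum_rp (hA : ∀ a : A, 2 • a = 0) (f : V → A) {Q : ℝ}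
    (hQ : Q ≤ ∑ x : V, ∑ y : V, ∑ h : V,
      (if f x + f (x + h) + (f y + f (y + h)) = 0 then (1:ℝ) else 0)) :
    Q ≤ ∑ x, ∑ y, rp f (y - x) (f x + f y) := by
  refine hQ.trans (le_of_eq ?_)
  refine Finset.sum_congr rfl fun x _ => ?_
  rw [Finset.sum_comm]
  have h1 : ∀ h : V, ∑ y : V, (if f x + f (x + h) + (f y + f (y + h)) = 0 then (1:ℝ) else 0) =
      rp f h (f x + f (x + h)) := by
    intro h
    unfold rp
    rw [← Finset.sum_boole]
    refine Finset.sum_congr rfl fun y _ => ?_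
    by_cases hh : f y + f (y + h) = f x + f (x + h)
    · rw [if_pos hh, if_pos]
      rw [hh]; exact add_self' hA _
    · rw [if_neg hh, if_neg]
      intro hc
      exact hh (eq_of_add_eq_zero' hA hc).symm
  calc ∑ h : V, ∑ y : V, (if f x + f (x + h) + (f y + f (y + h)) = 0 then (1:ℝ) else 0)
      = ∑ h : V, rp f h (f x + f (x + h)) := Finset.sum_congr rfl fun h _ => h1 h
    _ = ∑ y : V, rp f (y - x) (f x + f y) := by
        refine Fintype.sum_equiv (Equiv.addLeft x) _ _ fun h => ?_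
        simp only [Equiv.coe_addLeft, add_sub_cancel_left]

/-- `(n+1)`-fold sums contain `Y × f(Y)`. -/
theorem prod_le (n : ℕ) (hn : Odd n) (hV : ∀ v : V, n • v = 0) (hA : ∀ a : A, 2 • a = 0)
    (f : V → A) (Y : Finset V) :
    Y.card * (Y.image f).card ≤ ((n + 1) • Gr f Y).card := by
  rw [← Finset.card_product]
  refine Finset.card_le_card_of_injOn (fun p => (p.1, f p.1 + p.2)) ?_ ?_
  · intro p hp
    obtain ⟨h1, h2⟩ := Finset.mem_product.1 (Finset.mem_coe.1 hp)
    obtain ⟨y, hy, hy2⟩ := Finset.mem_image.1 h2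
    show (p.1, f p.1 + p.2) ∈ (n + 1) • Gr f Y
    have e1 : (p.1, f p.1 + p.2) = n • ((y, f y) : V × A) + (p.1, f p.1) := by
      refine Prod.ext ?_ ?_
      · simp only [Prod.fst_add, Prod.smul_fst, hV, zero_add]
      · simp only [Prod.snd_add, Prod.smul_snd]
        obtain ⟨m, rfl⟩ := hn
        rw [add_smul, one_smul, mul_comm, mul_smul, hA, smul_zero, zero_add, hy2, add_comm]
    rw [e1, succ_nsmul]
    refine Finset.add_mem_add (Finset.nsmul_mem_nsmul (Finset.mem_image.2 ⟨y, hy, rfl⟩))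
      (Finset.mem_image.2 ⟨p.1, h1, rfl⟩)
  · rintro ⟨x, a⟩ _ ⟨x', a'⟩ _ heq
    simp only [Prod.mk.injEq] at heq
    obtain ⟨rfl, h⟩ := heq
    rw [add_right_injective _ h]

/-- the constant -/
noncomputable def cst (n : ℕ) (ε : ℝ) : ℝ :=
  (ε / 2) ^ 2 / (32 * (18432 / (ε / 2) ^ 9) ^ (n + 1))

theorem cst_pos (n : ℕ) {ε : ℝ} (hε : 0 < ε) : 0 < cst n ε := by
  unfold cst; positivity

/-- **Core.** Many additive quadruples give a popular value. -/
theorem popular_aux (n : ℕ) (hn : Odd n) {ε : ℝ} (hε : 0 < ε) [Nonempty V]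
    (hV : ∀ v : V, n • v = 0) (hA : ∀ a : A, 2 • a = 0) (f : V → A)
    (hQ : ε * (Fintype.card V : ℝ) ^ 3 ≤ ∑ x, ∑ y, rp f (y - x) (f x + f y)) :
    ∃ a : A, cst n ε * (Fintype.card V : ℝ) ≤ ((univ.filter fun x => f x = a).card : ℝ) := by
  set N : ℝ := (Fintype.card V : ℝ) with hN
  have hN0 : 0 < N := Nat.cast_pos.2 Fintype.card_pos
  set α : ℝ := ε / 2 with hα
  have hα0 : 0 < α := by positivity
  -- the popular graph is dense
  have hE : α * N ^ 2 ≤ ∑ x, ∑ y, ed (PR f (α * N)) x y := by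
    have h1 : ∀ x y : V, rp f (y - x) (f x + f y) ≤ N * ed (PR f (α * N)) x y + α * N := by
      intro x y
      unfold ed
      by_cases h : PR f (α * N) x y
      · rw [if_pos h]
        have := rp_le f (y - x) (f x + f y)
        have h2 : 0 ≤ α * N := by positivity
        linarith only [this, h2]
      · rw [if_neg h]
        unfold PR at h
        linarith only [not_le.1 h]
    have h2 : ∑ x, ∑ y, rp f (y - x) (f x + f y) ≤
        N * (∑ x, ∑ y, ed (PR f (α * N)) x y) + N * (N * (α * N)) := by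
      calc ∑ x, ∑ y, rp f (y - x) (f x + f y)
          ≤ ∑ x : V, ∑ y : V, (N * ed (PR f (α * N)) x y + α * N) :=
            Finset.sum_le_sum fun x _ => Finset.sum_le_sum fun y _ => h1 x y
        _ = _ := by
            simp only [Finset.sum_add_distrib, Finset.sum_const, Finset.card_univ, nsmul_eq_mul,
              Finset.mul_sum]
            rw [← hN]
    have h3 : N * (α * N ^ 2) ≤ N * ∑ x, ∑ y, ed (PR f (α * N)) x y := by
      have h4 : ε = 2 * α := by rw [hα]; ring
      rw [h4] at hQ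
      nlinarith only [hQ, h2]
    exact le_of_mul_le_mul_left h3 hN0
  obtain ⟨X, Y, hX, hY, hc⟩ := bsg_paths (PR f (α * N)) hα0 hE
  have hX0 : (0:ℝ) < X.card := lt_of_lt_of_le (by positivity) hX
  have hY0 : (0:ℝ) < Y.card := lt_of_lt_of_le (by positivity) hY
  have hD := diff_card hA f hc
  have hP := PD_card f (α * N)
  set D : ℝ := ((Gr f X - Gr f Y).card : ℝ) with hDdef
  -- |P| ≤ N / α
  have hP' : ((PD f (α * N)).card : ℝ) ≤ N / α := by
    rw [le_div_iff₀ hα0]
    have h1 : N * (((PD f (α * N)).card : ℝ) * α) ≤ N * N := by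
      calc N * (((PD f (α * N)).card : ℝ) * α) = ((PD f (α * N)).card : ℝ) * (α * N) := by ring
        _ ≤ N ^ 2 := hP
        _ = N * N := by ring
    exact le_of_mul_le_mul_left h1 hN0
  have hD' : D * (α ^ 5 / 3072 * N ^ 2) ≤ (N / α) ^ 3 :=
    hD.trans (pow_le_pow_left₀ (Nat.cast_nonneg _) hP' 3)
  have hD2 : D ≤ 3072 / α ^ 8 * N := by
    have h1 : D * (α ^ 5 / 3072 * N ^ 2) ≤ 3072 / α ^ 8 * N * (α ^ 5 / 3072 * N ^ 2) := by
      refine hD'.trans (le_of_eq ?_)
      clear_value N α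
      field_simp
    exact le_of_mul_le_mul_right h1 (mul_pos (div_pos (pow_pos hα0 5) (by norm_num)) (pow_pos hN0 2))
  -- Pluennecke
  have hne : (Gr f X).Nonempty := by
    rw [← Finset.card_pos, Gr_card]
    exact_mod_cast hX0
  have hpl := Finset.pluennecke_ruzsa_inequality_nsmul_sub hne (Gr f Y) (n + 1)
  have hpr := prod_le n hn hV hA f Y
  have h5 : (Y.card : ℝ) * (Y.image f).card ≤ (D / X.card) ^ (n + 1) * X.card := by
    have e1 : (((Y.card * (Y.image f).card : ℕ)) : ℝ) ≤ (((n + 1) • Gr f Y).card : ℝ) := by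
      exact_mod_cast hpr
    have e2 : (((n + 1) • Gr f Y).card : ℝ) ≤
        (((Gr f X - Gr f Y).card : ℝ) / (Gr f X).card) ^ (n + 1) * (Gr f X).card := by
      have := (NNRat.cast_le (K := ℝ)).2 hpl
      push_cast at this
      exact this
    rw [Gr_card] at e2
    push_cast at e1
    exact e1.trans e2
  have hK : D / X.card ≤ 18432 / α ^ 9 := by
    rw [div_le_iff₀ hX0]
    refine hD2.trans ?_
    have h1 : 18432 / α ^ 9 * (α / 6 * N) ≤ 18432 / α ^ 9 * X.card :=
      mul_le_mul_of_nonneg_left hX (div_pos (by norm_num) (pow_pos hα0 9)).le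
    refine le_trans (le_of_eq ?_) h1
    clear_value N α
    field_simp
    norm_num
  have hD0 : 0 ≤ D / X.card := div_nonneg (Nat.cast_nonneg _) hX0.le
  have hKpos : (0:ℝ) < (18432 / α ^ 9) ^ (n + 1) := pow_pos (div_pos (by norm_num) (pow_pos hα0 9)) _
  have h6 : (Y.card : ℝ) * (Y.image f).card ≤ (18432 / α ^ 9) ^ (n + 1) * N :=
    h5.trans (mul_le_mul (pow_le_pow_left₀ hD0 hK _) (card_le X) hX0.le hKpos.le)
  by_contra hcon
  push Not at hcon
  have h7 : (Y.card : ℝ) ≤ (Y.image f).card * (cst n ε * N) := by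
    have e1 : Y.card = ∑ a ∈ Y.image f, (Y.filter fun x => f x = a).card :=
      Finset.card_eq_sum_card_image f Y
    rw [e1, ← nsmul_eq_mul, ← Finset.sum_const]
    push_cast
    refine Finset.sum_le_sum fun a _ => ?_
    refine le_trans ?_ (hcon a).le
    have : (Y.filter fun x => f x = a).card ≤ (univ.filter fun x => f x = a).card :=
      Finset.card_le_card (Finset.filter_subset_filter _ (Finset.subset_univ _))
    exact_mod_cast this
  have h8 : (Y.card : ℝ) * Y.card ≤ α ^ 2 / 32 * N ^ 2 := by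
    have e0 : 0 ≤ cst n ε * N := mul_nonneg (cst_pos n hε).le hN0.le
    calc (Y.card : ℝ) * Y.card ≤ Y.card * ((Y.image f).card * (cst n ε * N)) :=
          mul_le_mul_of_nonneg_left h7 hY0.le
      _ = (Y.card * (Y.image f).card) * (cst n ε * N) := by ring
      _ ≤ ((18432 / α ^ 9) ^ (n + 1) * N) * (cst n ε * N) := mul_le_mul_of_nonneg_right h6 e0
      _ = α ^ 2 / 32 * N ^ 2 := by
          unfold cst
          rw [← hα]
          set K := (18432 / α ^ 9) ^ (n + 1)
          clear_value K N α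
          field_simp
  have h9 : (α / 4 * N) * (α / 4 * N) ≤ (Y.card : ℝ) * Y.card :=
    mul_le_mul hY hY (mul_nonneg (by linarith only [hα0]) hN0.le) hY0.le
  have h10 : 0 < α ^ 2 * N ^ 2 := mul_pos (pow_pos hα0 2) (pow_pos hN0 2)
  nlinarith only [h8, h9, h10]

/-- **Core.** Many additive quadruples give a popular value. -/
theorem popular (n : ℕ) (hn : Odd n) {ε : ℝ} (hε : 0 < ε)
    (hV : ∀ v : V, n • v = 0) (hA : ∀ a : A, 2 • a = 0) (f : V → A)
    (hQ : ε * (Fintype.card V : ℝ) ^ 3 ≤ ((univ.filter fun p : V × V × V =>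
      f p.1 + f (p.1 + p.2.2) + (f p.2.1 + f (p.2.1 + p.2.2)) = 0).card : ℝ)) :
    ∃ a : A, cst n ε * (Fintype.card V : ℝ) ≤ ((univ.filter fun x => f x = a).card : ℝ) := by
  have : Nonempty V := ⟨0⟩
  refine popular_aux n hn hε hV hA f (sum_rp hA f (hQ.trans (le_of_eq ?_)))
  rw [← Finset.sum_boole, Fintype.sum_prod_type]
  refine Finset.sum_congr rfl fun x _ => ?_
  rw [Fintype.sum_prod_type]

end pop

section lines
variable {V : Type*} [AddCommGroup V] [Fintype V] [DecidableEq V]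
  {A : Type*} [AddCommGroup A] [DecidableEq A]

/-- Markov -/
theorem markov {ι : Type*} [Fintype ι] (b : ι → ℝ) {B η : ℝ} (hB : 0 < B) (hη : 0 ≤ η)
    (hb : ∀ i, b i ≤ B) (hs : 2 * η * (B * Fintype.card ι) ≤ ∑ i, b i) :
    η * (Fintype.card ι : ℝ) ≤
      (letI := Classical.propDecidable; ((univ.filter fun i => η * B ≤ b i).card : ℝ)) := by
  classical
  have h1 : ∀ i, b i ≤ B * (if η * B ≤ b i then (1:ℝ) else 0) + η * B := by
    intro i
    by_cases h : η * B ≤ b i
    · rw [if_pos h]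
      have := hb i
      have h2 : 0 ≤ η * B := mul_nonneg hη hB.le
      linarith only [this, h2]
    · rw [if_neg h]
      linarith only [not_le.1 h]
  have h2 : ∑ i, b i ≤ B * ((univ.filter fun i => η * B ≤ b i).card : ℝ) +
      Fintype.card ι * (η * B) := by
    calc ∑ i, b i ≤ ∑ i, (B * (if η * B ≤ b i then (1:ℝ) else 0) + η * B) :=
          Finset.sum_le_sum fun i _ => h1 i
      _ = _ := by
          rw [Finset.sum_add_distrib, ← Finset.mul_sum, Finset.sum_boole, Finset.sum_const,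
            Finset.card_univ, nsmul_eq_mul]
  have h3 : B * (η * (Fintype.card ι : ℝ)) ≤
      B * ((univ.filter fun i => η * B ≤ b i).card : ℝ) := by
    linarith only [hs, h2]
  have h4 := le_of_mul_le_mul_left h3 hB
  convert h4

/-- Cauchy-Schwarz -/
theorem cs {α β : Type*} [Fintype α] [Fintype β] [Nonempty β] (hA : ∀ a : A, 2 • a = 0)
    (F : α → β → A) (τ : β → A) {ε : ℝ} (hε : 0 ≤ ε)
    (h : ε * (Fintype.card α * Fintype.card β) ≤ ∑ b : β, ((univ.filter fun x => F x b = τ b).card : ℝ)) :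
    ε ^ 2 * ((Fintype.card α : ℝ) ^ 2 * Fintype.card β) ≤
      ∑ b : β, ((univ.filter fun p : α × α => F p.1 b + F p.2 b = 0).card : ℝ) := by
  have hβ : (0:ℝ) < Fintype.card β := Nat.cast_pos.2 Fintype.card_pos
  have h1 : ∑ b : β, ((univ.filter fun x => F x b = τ b).card : ℝ) ^ 2 ≤
      ∑ b : β, ((univ.filter fun p : α × α => F p.1 b + F p.2 b = 0).card : ℝ) := by
    refine Finset.sum_le_sum fun b _ => ?_
    have h2 : ((univ.filter fun x => F x b = τ b) ×ˢ (univ.filter fun x => F x b = τ b)).card ≤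
        (univ.filter fun p : α × α => F p.1 b + F p.2 b = 0).card := by
      refine Finset.card_le_card ?_
      intro p hp
      obtain ⟨e1, e2⟩ := Finset.mem_product.1 hp
      refine Finset.mem_filter.2 ⟨Finset.mem_univ _, ?_⟩
      rw [(Finset.mem_filter.1 e1).2, (Finset.mem_filter.1 e2).2]
      exact add_self' hA _
    rw [Finset.card_product] at h2
    rw [sq]
    exact_mod_cast h2
  refine le_trans ?_ h1
  have h3 := sq_sum_le_card_mul_sum_sq (s := (univ : Finset β))
    (f := fun b => ((univ.filter fun x => F x b = τ b).card : ℝ))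
  rw [Finset.card_univ] at h3
  have h4 : (ε * (Fintype.card α * Fintype.card β)) ^ 2 ≤
      (∑ b : β, ((univ.filter fun x => F x b = τ b).card : ℝ)) ^ 2 :=
    pow_le_pow_left₀ (mul_nonneg hε (by positivity)) h 2
  have h5 : (Fintype.card β : ℝ) * (ε ^ 2 * ((Fintype.card α : ℝ) ^ 2 * Fintype.card β)) ≤
      Fintype.card β * ∑ b : β, ((univ.filter fun x => F x b = τ b).card : ℝ) ^ 2 := by
    calc (Fintype.card β : ℝ) * (ε ^ 2 * ((Fintype.card α : ℝ) ^ 2 * Fintype.card β))
        = (ε * (Fintype.card α * Fintype.card β)) ^ 2 := by ring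
      _ ≤ _ := h4.trans h3
  exact le_of_mul_le_mul_left h5 hβ

/-- from the sum form to the quadruple form -/
theorem popular' (n : ℕ) (hn : Odd n) {ε : ℝ} (hε : 0 < ε)
    (hV : ∀ v : V, n • v = 0) (hA : ∀ a : A, 2 • a = 0) (f : V → A)
    (hQ : ε * (Fintype.card V : ℝ) ^ 3 ≤ ∑ h : V, ((univ.filter fun p : V × V =>
      f p.1 + f (p.1 + h) + (f p.2 + f (p.2 + h)) = 0).card : ℝ)) :
    ∃ a : A, cst n ε * (Fintype.card V : ℝ) ≤ ((univ.filter fun x => f x = a).card : ℝ) := by
  have : Nonempty V := ⟨0⟩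
  refine popular_aux n hn hε hV hA f (sum_rp hA f (hQ.trans (le_of_eq ?_)))
  have h1 : ∀ h : V, ((univ.filter fun p : V × V =>
      f p.1 + f (p.1 + h) + (f p.2 + f (p.2 + h)) = 0).card : ℝ) =
      ∑ x : V, ∑ y : V, (if f x + f (x + h) + (f y + f (y + h)) = 0 then (1:ℝ) else 0) := by
    intro h
    rw [← Finset.sum_boole, Fintype.sum_prod_type]
  rw [Finset.sum_congr rfl fun h _ => h1 h, Finset.sum_comm]
  refine Finset.sum_congr rfl fun x _ => ?_
  rw [Finset.sum_comm]

/-- additive triples give a popular value -/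
theorem triples (hV : ∀ v : V, 3 • v = 0) (hA : ∀ a : A, 2 • a = 0) {ε : ℝ} (hε : 0 < ε)
    (D : V → A) (h : ε * (Fintype.card V : ℝ) ^ 2 ≤
      ∑ v : V, ((univ.filter fun h => D (v + h) + D (v - h) = D v).card : ℝ)) :
    ∃ a : A, cst 3 (ε ^ 2) * (Fintype.card V : ℝ) ≤ ((univ.filter fun x => D x = a).card : ℝ) := by
  have : Nonempty V := ⟨0⟩
  refine popular' 3 (by decide) (by positivity) hV hA D ?_
  have h1 := cs (α := V) (β := V) hA (fun h v => D (v + h) + D (v - h)) D hε.le
    (by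
      refine le_trans (le_of_eq ?_) h
      ring)
  have h2 : ε ^ 2 * (Fintype.card V : ℝ) ^ 3 ≤ ∑ b : V, ((univ.filter fun p : V × V =>
      D (b + p.1) + D (b - p.1) + (D (b + p.2) + D (b - p.2)) = 0).card : ℝ) := by
    refine le_trans (le_of_eq ?_) h1
    ring
  refine h2.trans ?_
  have h3 : ∑ b : V, ((univ.filter fun p : V × V =>
      D (b + p.1) + D (b - p.1) + (D (b + p.2) + D (b - p.2)) = 0).card : ℝ) =
      (((univ : Finset V).sigma fun b => univ.filter fun p : V × V =>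
        D (b + p.1) + D (b - p.1) + (D (b + p.2) + D (b - p.2)) = 0).card : ℝ) := by
    rw [Finset.card_sigma]; push_cast; rfl
  have h4 : ∑ h : V, ((univ.filter fun p : V × V =>
      D p.1 + D (p.1 + h) + (D p.2 + D (p.2 + h)) = 0).card : ℝ) =
      (((univ : Finset V).sigma fun h => univ.filter fun p : V × V =>
        D p.1 + D (p.1 + h) + (D p.2 + D (p.2 + h)) = 0).card : ℝ) := by
    rw [Finset.card_sigma]; push_cast; rfl
  rw [h3, h4]
  have h5 : ((univ : Finset V).sigma fun b => univ.filter fun p : V × V =>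
        D (b + p.1) + D (b - p.1) + (D (b + p.2) + D (b - p.2)) = 0).card ≤
      ((univ : Finset V).sigma fun h => univ.filter fun p : V × V =>
        D p.1 + D (p.1 + h) + (D p.2 + D (p.2 + h)) = 0).card := by
    refine Finset.card_le_card_of_injOn
      (fun s => ⟨s.2.2 - s.2.1, (s.1 + s.2.1, s.1 - s.2.2)⟩) ?_ ?_
    · rintro ⟨b, p⟩ hs
      have e1 := (Finset.mem_filter.1 (Finset.mem_sigma.1 (Finset.mem_coe.1 hs)).2).2
      refine Finset.mem_coe.2 (Finset.mem_sigma.2 ⟨Finset.mem_univ _,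
        Finset.mem_filter.2 ⟨Finset.mem_univ _, ?_⟩⟩)
      simp only at e1 ⊢
      have a1 : b + p.1 + (p.2 - p.1) = b + p.2 := by abel
      have a2 : b - p.2 + (p.2 - p.1) = b - p.1 := by abel
      rw [a1, a2, ← e1]
      abel
    · rintro ⟨b, h, h'⟩ _ ⟨b2, k, k'⟩ _ heq
      simp only [Sigma.mk.injEq, heq_eq_eq, Prod.mk.injEq] at heq
      obtain ⟨e1, e2, e3⟩ := heq
      have e4 : b + b = b2 + b2 := by
        calc b + b = (b + h) + (b - h') + (h' - h) := by abel
          _ = (b2 + k) + (b2 - k') + (k' - k) := by rw [e1, e2, e3]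
          _ = b2 + b2 := by abel
      have e5 : ∀ x : V, x + x = -x := by
        intro x
        have := hV x
        rw [show (3:ℕ) = 2 + 1 from rfl, add_smul, two_nsmul, one_nsmul] at this
        exact eq_neg_of_add_eq_zero_left this
      rw [e5, e5, neg_inj] at e4
      subst e4
      have e6 : h = k := add_left_cancel e2
      have e7 : h' = k' := sub_right_injective e3
      rw [e6, e7]
  exact_mod_cast h5

/-- the constant for lines -/
noncomputable def cl (ε : ℝ) : ℝ := cst 3 ((ε ^ 2 / 2 * cst 3 ((ε ^ 2 / 2) ^ 2)) ^ 2)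

theorem cl_pos {ε : ℝ} (hε : 0 < ε) : 0 < cl ε := by
  unfold cl
  have h1 := cst_pos 3 (show 0 < (ε ^ 2 / 2) ^ 2 by positivity)
  exact cst_pos 3 (by positivity)

/-- **Lines.** -/
theorem line (hV : ∀ v : V, 3 • v = 0) (hA : ∀ a : A, 2 • a = 0) {ε : ℝ} (hε : 0 < ε)
    (f : V → A) (τ : V → A) (h : ε * (Fintype.card V : ℝ) ^ 2 ≤
      ∑ h : V, ((univ.filter fun v => f v + f (v + h) + f (v - h) = τ h).card : ℝ)) :
    ∃ a : A, cl ε * (Fintype.card V : ℝ) ≤ ((univ.filter fun x => f x = a).card : ℝ) := by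
  classical
  have : Nonempty V := ⟨0⟩
  set N : ℝ := (Fintype.card V : ℝ) with hN
  have hN0 : 0 < N := Nat.cast_pos.2 Fintype.card_pos
  have h1 := cs (α := V) (β := V) hA (fun v h => f v + f (v + h) + f (v - h)) τ hε.le
    (by
      refine le_trans (le_of_eq ?_) h
      ring)
  -- the derivative
  set D : V → V → A := fun k x => f x + f (x + k) with hD
  set b : V → ℝ := fun k => ∑ v : V,
    ((univ.filter fun h => D k (v + h) + D k (v - h) = D k v).card : ℝ) with hb
  have h2 : ε ^ 2 * N ^ 3 ≤ ∑ k, b k := by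
    have e1 : ∑ b : V, ((univ.filter fun p : V × V => f p.1 + f (p.1 + b) + f (p.1 - b) +
        (f p.2 + f (p.2 + b) + f (p.2 - b)) = 0).card : ℝ) =
        (((univ : Finset V).sigma fun b => univ.filter fun p : V × V =>
          f p.1 + f (p.1 + b) + f (p.1 - b) + (f p.2 + f (p.2 + b) + f (p.2 - b)) = 0).card : ℝ) := by
      rw [Finset.card_sigma]; push_cast; rfl
    have e2 : ∑ k, b k = (((univ : Finset (V × V)).sigma fun kv => univ.filter fun h : V =>
        D kv.1 (kv.2 + h) + D kv.1 (kv.2 - h) = D kv.1 kv.2).card : ℝ) := by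
      rw [Finset.card_sigma, hb]
      push_cast
      rw [Fintype.sum_prod_type]
    have e3 : ε ^ 2 * N ^ 3 ≤ ∑ b : V, ((univ.filter fun p : V × V => f p.1 + f (p.1 + b) + f (p.1 - b) +
        (f p.2 + f (p.2 + b) + f (p.2 - b)) = 0).card : ℝ) := by
      refine le_trans (le_of_eq ?_) h1
      ring
    refine e3.trans ?_
    rw [e1, e2]
    have e4 : ((univ : Finset V).sigma fun b => univ.filter fun p : V × V =>
          f p.1 + f (p.1 + b) + f (p.1 - b) + (f p.2 + f (p.2 + b) + f (p.2 - b)) = 0).card ≤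
        ((univ : Finset (V × V)).sigma fun kv => univ.filter fun h : V =>
        D kv.1 (kv.2 + h) + D kv.1 (kv.2 - h) = D kv.1 kv.2).card := by
      refine Finset.card_le_card_of_injOn
        (fun s => ⟨(s.2.2 - s.2.1, s.2.1), s.1⟩) ?_ ?_
      · rintro ⟨h, p⟩ hs
        have a1 := (Finset.mem_filter.1 (Finset.mem_sigma.1 (Finset.mem_coe.1 hs)).2).2
        refine Finset.mem_coe.2 (Finset.mem_sigma.2 ⟨Finset.mem_univ _,
          Finset.mem_filter.2 ⟨Finset.mem_univ _, ?_⟩⟩)
        simp only [hD] at a1 ⊢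
        have a2 : p.1 + h + (p.2 - p.1) = p.2 + h := by abel
        have a3 : p.1 - h + (p.2 - p.1) = p.2 - h := by abel
        have a4 : p.1 + (p.2 - p.1) = p.2 := by abel
        rw [a2, a3, a4]
        refine eq_of_add_eq_zero' hA ?_
        rw [← a1]
        abel
      · rintro ⟨h, p, q⟩ _ ⟨h', p', q'⟩ _ heq
        simp only [Sigma.mk.injEq, heq_eq_eq, Prod.mk.injEq] at heq
        obtain ⟨⟨c1, rfl⟩, rfl⟩ := heq
        have c2 : q = q' := sub_left_injective c1
        rw [c2]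
    exact_mod_cast e4
  -- popular derivatives
  set ε1 : ℝ := ε ^ 2 / 2 with hε1
  have hε10 : 0 < ε1 := by positivity
  have hbB : ∀ k, b k ≤ N ^ 2 := by
    intro k
    have := sum_le_card (univ : Finset V) (F := fun v =>
      ((univ.filter fun h => D k (v + h) + D k (v - h) = D k v).card : ℝ)) (c := N)
      (fun v => card_le _)
    rw [Finset.card_univ] at this
    refine this.trans (le_of_eq ?_)
    rw [← hN]; ring
  have h3 := markov b (B := N ^ 2) (η := ε1) (by positivity) hε10.le hbB (by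
    refine le_trans (le_of_eq ?_) h2
    rw [hε1, ← hN]; ring)
  set K : Finset V := univ.filter fun k => ε1 * N ^ 2 ≤ b k with hK
  have hKc : ε1 * N ≤ (K.card : ℝ) := by
    rw [hN, hK]
    convert h3
  have h4 : ∀ k, ∃ a : A, k ∈ K → cst 3 (ε1 ^ 2) * N ≤ ((univ.filter fun x => D k x = a).card : ℝ) := by
    intro k
    by_cases hk : k ∈ K
    · obtain ⟨a, ha⟩ := triples hV hA hε10 (D k) (Finset.mem_filter.1 hk).2
      exact ⟨a, fun _ => ha⟩
    · exact ⟨0, fun h => absurd h hk⟩
  choose c hc using h4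
  set δ1 : ℝ := cst 3 (ε1 ^ 2) with hδ1
  have hδ10 : 0 < δ1 := cst_pos 3 (by positivity)
  have h5 : ε1 * δ1 * (Fintype.card V * Fintype.card V) ≤
      ∑ k : V, ((univ.filter fun x => D k x = c k).card : ℝ) := by
    calc ε1 * δ1 * (Fintype.card V * Fintype.card V) = (ε1 * N) * (δ1 * N) := by rw [← hN]; ring
      _ ≤ K.card * (δ1 * N) := mul_le_mul_of_nonneg_right hKc (by positivity)
      _ = ∑ _k ∈ K, δ1 * N := by rw [Finset.sum_const, nsmul_eq_mul]
      _ ≤ ∑ k ∈ K, ((univ.filter fun x => D k x = c k).card : ℝ) :=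
          Finset.sum_le_sum fun k hk => hc k hk
      _ ≤ _ := Finset.sum_le_sum_of_subset_of_nonneg (Finset.subset_univ _) fun _ _ _ =>
          Nat.cast_nonneg _
  have h6 := cs (α := V) (β := V) hA (fun x k => D k x) c (by positivity) h5
  have h7 := popular' 3 (by decide) (show 0 < (ε1 * δ1) ^ 2 by positivity) hV hA f (by
    refine le_trans (le_of_eq ?_) h6
    rw [← hN]; ring)
  exact h7

end lines

section mono

/-- `F` is a monomial on the positive axis -/
def Mono (F : ℝ → ℝ) : Prop := ∃ (c : ℝ) (m : ℕ), 0 < c ∧ 0 < m ∧ ∀ ε : ℝ, 0 < ε → F ε = c * ε ^ m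

theorem Mono.pos {F : ℝ → ℝ} (hF : Mono F) {ε : ℝ} (hε : 0 < ε) : 0 < F ε := by
  obtain ⟨c, m, hc, -, h⟩ := hF
  rw [h ε hε]; positivity

theorem Mono.comp {F G : ℝ → ℝ} (hF : Mono F) (hG : Mono G) : Mono fun ε => F (G ε) := by
  have hG' := hG
  obtain ⟨c, m, hc, hm, h⟩ := hF
  obtain ⟨c', m', hc', hm', h'⟩ := hG
  refine ⟨c * c' ^ m, m' * m, by positivity, Nat.mul_pos hm' hm, fun ε hε => ?_⟩
  show F (G ε) = _
  rw [h _ (hG'.pos hε), h' ε hε, mul_pow, ← pow_mul]
  ring

theorem Mono.mul {F G : ℝ → ℝ} (hF : Mono F) (hG : Mono G) : Mono fun ε => F ε * G ε := by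
  obtain ⟨c, m, hc, hm, h⟩ := hF
  obtain ⟨c', m', hc', hm', h'⟩ := hG
  refine ⟨c * c', m + m', by positivity, Nat.add_pos_left hm _, fun ε hε => ?_⟩
  show F ε * G ε = _
  rw [h ε hε, h' ε hε, pow_add]
  ring

theorem Mono.pow {F : ℝ → ℝ} (hF : Mono F) {k : ℕ} (hk : 0 < k) : Mono fun ε => F ε ^ k := by
  obtain ⟨c, m, hc, hm, h⟩ := hF
  refine ⟨c ^ k, m * k, by positivity, Nat.mul_pos hm hk, fun ε hε => ?_⟩
  show F ε ^ k = _
  rw [h ε hε, mul_pow, ← pow_mul]

theorem Mono.half : Mono fun ε => ε / 2 := ⟨1 / 2, 1, by norm_num, one_pos, fun ε _ => by ring⟩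

theorem Mono.id : Mono fun ε => ε := ⟨1, 1, one_pos, one_pos, fun ε _ => by ring⟩

theorem mono_cst : Mono (cst 3) := by
  refine ⟨1 / (32 * 18432 ^ 4 * 2 ^ 38), 38, by positivity, by norm_num, fun ε hε => ?_⟩
  have h1 : ∀ x : ℝ, 0 < x → x ^ 2 / (32 * (18432 / x ^ 9) ^ (3 + 1)) = x ^ 38 / (32 * 18432 ^ 4) := by
    intro x hx
    rw [div_pow, ← pow_mul]
    field_simp
  unfold cst
  rw [h1 _ (by positivity), div_pow]
  ring

theorem mono_cl : Mono cl := by
  have h1 : Mono fun ε : ℝ => ε ^ 2 / 2 := Mono.half.comp (Mono.id.pow two_pos)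
  exact mono_cst.comp ((h1.mul (mono_cst.comp (h1.pow two_pos))).pow two_pos)

end mono

section flats
universe u v
variable {V : Type u} [AddCommGroup V] {A : Type v} [AddCommGroup A]

/-- the element with coordinates `c` -/
def comb {d : ℕ} (w : Fin d → V) (c : Fin d → ZMod 3) : V := ∑ i, (c i).val • w i

/-- sum of `g` over the flat `x + span w` -/
def fl (g : V → A) {d : ℕ} (w : Fin d → V) (x : V) : A := ∑ c : Fin d → ZMod 3, g (x + comb w c)

theorem fl_zero (g : V → A) (w : Fin 0 → V) (x : V) : fl g w x = g x := by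
  unfold fl comb
  simp

theorem comb_cons {d : ℕ} (h : V) (w : Fin d → V) (a : ZMod 3) (c : Fin d → ZMod 3) :
    comb (Fin.cons h w : Fin (d + 1) → V) (Fin.cons a c : Fin (d + 1) → ZMod 3) =
      a.val • h + comb w c := by
  unfold comb
  rw [Fin.sum_univ_succ]
  simp only [Fin.cons_zero, Fin.cons_succ]

theorem sum_cons {d : ℕ} (F : (Fin (d + 1) → ZMod 3) → A) :
    ∑ c, F c = ∑ c : Fin d → ZMod 3, (F (Fin.cons 0 c) + F (Fin.cons 1 c) + F (Fin.cons 2 c)) := by
  rw [← (Fin.consEquiv (fun _ : Fin (d + 1) => ZMod 3)).sum_comp F, Fintype.sum_prod_type_right]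
  refine Finset.sum_congr rfl fun c _ => ?_
  exact Fin.sum_univ_three fun a : Fin 3 => F (Fin.cons (α := fun _ : Fin (d + 1) => ZMod 3) a c)

theorem val0 : (0 : ZMod 3).val = 0 := rfl
theorem val1 : (1 : ZMod 3).val = 1 := rfl
theorem val2 : (2 : ZMod 3).val = 2 := rfl

theorem two_smul_eq (hV : ∀ v : V, 3 • v = 0) (x : V) : 2 • x = -x := by
  have := hV x
  rw [show (3:ℕ) = 2 + 1 from rfl, add_smul, one_nsmul] at this
  exact eq_neg_of_add_eq_zero_left this

theorem fl_cons (hV : ∀ v : V, 3 • v = 0) (g : V → A) {d : ℕ} (h : V) (w : Fin d → V) (x : V) :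
    fl g (Fin.cons h w : Fin (d + 1) → V) x = fl g w x + fl g w (x + h) + fl g w (x - h) := by
  unfold fl
  rw [sum_cons]
  simp only [comb_cons, val0, val1, val2, zero_smul, one_smul, zero_add]
  rw [Finset.sum_add_distrib, Finset.sum_add_distrib]
  congr 1
  · congr 1
    refine Finset.sum_congr rfl fun c _ => ?_
    rw [add_assoc]
  · refine Finset.sum_congr rfl fun c _ => ?_
    rw [two_smul_eq hV, sub_eq_add_neg, add_assoc]

/-- negation of the coordinates -/
theorem comb_neg (hV : ∀ v : V, 3 • v = 0) {d : ℕ} (w : Fin d → V) (c : Fin d → ZMod 3) :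
    comb w (-c) = -comb w c := by
  unfold comb
  rw [← Finset.sum_neg_distrib]
  refine Finset.sum_congr rfl fun i _ => ?_
  have key : ∀ a : ZMod 3, (-a).val = 0 ∧ a.val = 0 ∨ (-a).val = 1 ∧ a.val = 2 ∨
    (-a).val = 2 ∧ a.val = 1 := by decide
  rw [Pi.neg_apply]
  rcases key (c i) with ⟨h1, h2⟩ | ⟨h1, h2⟩ | ⟨h1, h2⟩
  · rw [h1, h2, zero_smul, neg_zero]
  · rw [h1, h2, two_smul_eq hV, one_smul, neg_neg]
  · rw [h1, h2, two_smul_eq hV, one_smul]

/-- the sum over the span in terms of flats of `g(x) = q(x) + q(-x)` -/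
theorem span_eq (hV : ∀ v : V, 3 • v = 0) (q : V → A) {d : ℕ} (h : V) (w : Fin d → V) :
    ∑ c : Fin (d + 1) → ZMod 3, q (comb (Fin.cons h w : Fin (d + 1) → V) c) =
      ∑ c : Fin d → ZMod 3, q (comb w c) + fl (fun x => q x + q (-x)) w h := by
  rw [sum_cons]
  simp only [comb_cons, val0, val1, val2, zero_smul, one_smul, zero_add]
  unfold fl
  rw [Finset.sum_add_distrib, Finset.sum_add_distrib, Finset.sum_add_distrib, ← add_assoc]
  congr 1
  rw [← Equiv.sum_comp (Equiv.neg (Fin d → ZMod 3)) fun c => q (2 • h + comb w c)]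
  refine Finset.sum_congr rfl fun c _ => ?_
  rw [Equiv.neg_apply, comb_neg hV, two_smul_eq hV, neg_add]

end flats

section induct
universe u v

/-- **Flats.** -/
theorem flats_pow (d : ℕ) : ∃ F : ℝ → ℝ, Mono F ∧ ∀ ε : ℝ, 0 < ε →
    ∀ (V : Type u) [AddCommGroup V] [Fintype V] [DecidableEq V]
      (A : Type v) [AddCommGroup A] [DecidableEq A],
      (∀ v : V, 3 • v = 0) → (∀ a : A, 2 • a = 0) → ∀ (g : V → A) (τ : (Fin d → V) → A),
      ε * (Fintype.card V : ℝ) ^ (d + 1) ≤
        ∑ w : Fin d → V, ((univ.filter fun x => fl g w x = τ w).card : ℝ) →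
      ∃ a : A, F ε * (Fintype.card V : ℝ) ≤ ((univ.filter fun x => g x = a).card : ℝ) := by
  induction d with
  | zero =>
    refine ⟨fun ε => ε, Mono.id, ?_⟩
    intro ε hε V _ _ _ A _ _ hV hA g τ h
    refine ⟨τ default, ?_⟩
    rw [Fintype.sum_unique] at h
    simp only [fl_zero] at h
    rw [zero_add, pow_one] at h
    exact h
  | succ d ih =>
    obtain ⟨F, hF, hi'⟩ := ih
    refine ⟨fun ε => F (ε / 2 * cl (ε / 2)), hF.comp (Mono.half.mul (mono_cl.comp Mono.half)), ?_⟩
    intro ε hε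
    have hcl : 0 < cl (ε / 2) := cl_pos (by positivity)
    have hi := hi' (ε / 2 * cl (ε / 2)) (by positivity)
    intro V _ _ _ A _ _ hV hA g τ h
    classical
    have : Nonempty V := ⟨0⟩
    have hN0 : (0:ℝ) < Fintype.card V := Nat.cast_pos.2 Fintype.card_pos
    set N : ℝ := (Fintype.card V : ℝ) with hN
    set b : (Fin d → V) → ℝ := fun w => ∑ h : V,
      ((univ.filter fun x => fl g w x + fl g w (x + h) + fl g w (x - h) =
        τ (Fin.cons h w)).card : ℝ) with hb
    have h1 : ε * N ^ (d + 2) ≤ ∑ w, b w := by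
      refine h.trans (le_of_eq ?_)
      rw [← (Fin.consEquiv (fun _ : Fin (d + 1) => V)).sum_comp, Fintype.sum_prod_type_right]
      refine Finset.sum_congr rfl fun w _ => Finset.sum_congr rfl fun h _ => ?_
      have e1 : (Fin.consEquiv (fun _ : Fin (d + 1) => V)) (h, w) = (Fin.cons h w : Fin (d + 1) → V) :=
        rfl
      rw [e1]
      simp only [fl_cons hV]
    have hbB : ∀ w, b w ≤ N ^ 2 := by
      intro w
      have := sum_le_card (univ : Finset V) (F := fun h =>
        ((univ.filter fun x => fl g w x + fl g w (x + h) + fl g w (x - h) =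
        τ (Fin.cons h w)).card : ℝ)) (c := N) (fun v => card_le _)
      rw [Finset.card_univ] at this
      refine this.trans (le_of_eq ?_)
      rw [← hN]; ring
    have hcw : (Fintype.card (Fin d → V) : ℝ) = N ^ d := by
      rw [Fintype.card_fun, Fintype.card_fin]; push_cast; rfl
    have h2 := markov b (B := N ^ 2) (η := ε / 2) (by positivity) (by positivity) hbB (by
      rw [hcw]
      refine le_trans (le_of_eq ?_) h1
      ring)
    rw [hcw] at h2
    set W : Finset (Fin d → V) := univ.filter fun w => ε / 2 * N ^ 2 ≤ b w with hW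
    have hWc : ε / 2 * N ^ d ≤ (W.card : ℝ) := by
      rw [hW]
      convert h2
    have h3 : ∀ w : Fin d → V, ∃ a : A, w ∈ W → cl (ε / 2) * N ≤
        ((univ.filter fun x => fl g w x = a).card : ℝ) := by
      intro w
      by_cases hw : w ∈ W
      · obtain ⟨a, ha⟩ := line hV hA (show 0 < ε / 2 by positivity) (fl g w)
          (fun h => τ (Fin.cons h w)) (Finset.mem_filter.1 hw).2
        exact ⟨a, fun _ => ha⟩
      · exact ⟨0, fun h => absurd h hw⟩
    choose τ' hτ' using h3
    refine hi V A hV hA g τ' ?_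
    calc ε / 2 * cl (ε / 2) * (Fintype.card V : ℝ) ^ (d + 1)
        = (ε / 2 * N ^ d) * (cl (ε / 2) * N) := by rw [← hN]; ring
      _ ≤ W.card * (cl (ε / 2) * N) := mul_le_mul_of_nonneg_right hWc (by positivity)
      _ = ∑ _w ∈ W, cl (ε / 2) * N := by rw [Finset.sum_const, nsmul_eq_mul]
      _ ≤ ∑ w ∈ W, ((univ.filter fun x => fl g w x = τ' w).card : ℝ) :=
          Finset.sum_le_sum fun w hw => hτ' w hw
      _ ≤ _ := Finset.sum_le_sum_of_subset_of_nonneg (Finset.subset_univ _) fun _ _ _ =>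
          Nat.cast_nonneg _

/-- **Flats**, weak form. -/
theorem flats (d : ℕ) : ∀ ε : ℝ, 0 < ε → ∃ δ : ℝ, 0 < δ ∧
    ∀ (V : Type u) [AddCommGroup V] [Fintype V] [DecidableEq V]
      (A : Type v) [AddCommGroup A] [DecidableEq A],
      (∀ v : V, 3 • v = 0) → (∀ a : A, 2 • a = 0) → ∀ (g : V → A) (τ : (Fin d → V) → A),
      ε * (Fintype.card V : ℝ) ^ (d + 1) ≤
        ∑ w : Fin d → V, ((univ.filter fun x => fl g w x = τ w).card : ℝ) →
      ∃ a : A, δ * (Fintype.card V : ℝ) ≤ ((univ.filter fun x => g x = a).card : ℝ) := by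
  obtain ⟨F, hF, h⟩ := flats_pow.{u, v} d
  exact fun ε hε => ⟨F ε, hF.pos hε, h ε hε⟩

end induct

section final
universe u v

section hom
variable {V : Type u} [AddCommGroup V] {A : Type v} [AddCommGroup A]

theorem mod_smul (hV : ∀ v : V, 3 • v = 0) (m : ℕ) (x : V) : (m % 3) • x = m • x := by
  conv_rhs => rw [← Nat.mod_add_div m 3, add_smul, mul_comm, mul_smul, hV, smul_zero, add_zero]

/-- the coordinates give a homomorphism -/
def combHom (hV : ∀ v : V, 3 • v = 0) {d : ℕ} (w : Fin d → V) : (Fin d → ZMod 3) →+ V where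
  toFun := comb w
  map_zero' := by
    unfold comb
    refine Finset.sum_eq_zero fun i _ => ?_
    rw [Pi.zero_apply, val0, zero_smul]
  map_add' := by
    intro a b
    unfold comb
    rw [← Finset.sum_add_distrib]
    refine Finset.sum_congr rfl fun i _ => ?_
    rw [Pi.add_apply, ZMod.val_add, mod_smul hV, add_smul]

theorem combHom_range (hV : ∀ v : V, 3 • v = 0) {d : ℕ} (w : Fin d → V) :
    (combHom hV w).range = AddSubgroup.closure (Set.range w) := by
  apply le_antisymm
  · rintro x ⟨c, rfl⟩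
    show comb w c ∈ AddSubgroup.closure (Set.range w)
    unfold comb
    exact sum_mem fun i _ => nsmul_mem (AddSubgroup.subset_closure (Set.mem_range_self i)) _
  · rw [AddSubgroup.closure_le]
    rintro x ⟨i, rfl⟩
    refine ⟨Pi.single i 1, ?_⟩
    show comb w (Pi.single i 1) = w i
    unfold comb
    rw [Finset.sum_eq_single i]
    · rw [Pi.single_eq_same, val1, one_smul]
    · intro j _ hj
      rw [Pi.single_eq_of_ne hj, val0, zero_smul]
    · intro h
      exact absurd (Finset.mem_univ i) h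

/-- the parametrised sum is the sum over the span (the fibres are odd). -/
theorem sum_comb [Fintype V] [DecidableEq V] (hV : ∀ v : V, 3 • v = 0) (hA : ∀ a : A, 2 • a = 0)
    {d : ℕ} (w : Fin d → V) (q : V → A) (X : Finset V)
    (hX : ∀ x, x ∈ X ↔ x ∈ AddSubgroup.closure (Set.range w)) :
    ∑ c : Fin d → ZMod 3, q (comb w c) = ∑ x ∈ X, q x := by
  classical
  have hmem : ∀ c : Fin d → ZMod 3, comb w c ∈ X := by
    intro c
    rw [hX, ← combHom_range hV]
    exact ⟨c, rfl⟩
  rw [← Finset.sum_fiberwise_of_maps_to (g := comb w) (t := X) (fun c _ => hmem c)]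
  refine Finset.sum_congr rfl fun x hx => ?_
  have h1 : ∑ c ∈ univ.filter (fun c : Fin d → ZMod 3 => comb w c = x), q (comb w c) =
      (univ.filter (fun c : Fin d → ZMod 3 => comb w c = x)).card • q x := by
    rw [← Finset.sum_const]
    refine Finset.sum_congr rfl fun c hc => ?_
    rw [(Finset.mem_filter.1 hc).2]
  rw [h1]
  obtain ⟨c0, hc0⟩ : x ∈ (combHom hV w).range := by
    rw [combHom_range hV]; exact (hX x).1 hx
  have h2 : (univ.filter (fun c : Fin d → ZMod 3 => comb w c = x)).card =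
      Nat.card (combHom hV w).ker := by
    rw [← Fintype.card_subtype, ← Nat.card_eq_fintype_card]
    refine Nat.card_congr ⟨fun c => ⟨c.1 - c0, ?_⟩, fun k => ⟨k.1 + c0, ?_⟩, ?_, ?_⟩
    · rw [AddMonoidHom.mem_ker, map_sub, hc0]
      have : combHom hV w c.1 = x := c.2
      rw [this, sub_self]
    · have : combHom hV w (k.1 + c0) = x := by
        rw [map_add, hc0, (AddMonoidHom.mem_ker).1 k.2, zero_add]
      exact this
    · intro c; ext1; simp
    · intro k; ext1; simp
  have h3 : Odd (Nat.card (combHom hV w).ker) := by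
    have h4 : Nat.card (combHom hV w).ker ∣ Nat.card (Fin d → ZMod 3) :=
      AddSubgroup.card_addSubgroup_dvd_card _
    have h5 : Nat.card (Fin d → ZMod 3) = 3 ^ d := by
      rw [Nat.card_eq_fintype_card, Fintype.card_fun, ZMod.card, Fintype.card_fin]
    rw [h5] at h4
    exact Odd.of_dvd_nat (Odd.pow (by decide)) h4
  rw [h2]
  obtain ⟨m, hm⟩ := h3
  rw [hm, add_smul, one_smul, mul_comm, mul_smul, hA, smul_zero, zero_add]

end hom

/-- **Popular value of `q(x) + q(-x)`.** -/
theorem spans_pow (d : ℕ) : ∃ F : ℝ → ℝ, Mono F ∧ ∀ ε : ℝ, 0 < ε →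
    ∀ (V : Type u) [AddCommGroup V] [Fintype V] [DecidableEq V]
      (A : Type v) [AddCommGroup A] [DecidableEq A],
      (∀ v : V, 3 • v = 0) → (∀ a : A, 2 • a = 0) → ∀ q : V → A,
      ε * (Fintype.card V : ℝ) ^ (d + 1) ≤ ((univ.filter fun v : Fin (d + 1) → V =>
        ∑ c : Fin (d + 1) → ZMod 3, q (comb v c) = 0).card : ℝ) →
      ∃ a : A, F ε * (Fintype.card V : ℝ) ≤ ((univ.filter fun x => q x + q (-x) = a).card : ℝ) := by
  obtain ⟨F, hF, h'⟩ := flats_pow.{u, v} d
  refine ⟨F, hF, ?_⟩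
  intro ε hε V _ _ _ A _ _ hV hA q hq
  have h := h' ε hε
  refine h V A hV hA (fun x => q x + q (-x)) (fun w => ∑ c : Fin d → ZMod 3, q (comb w c)) ?_
  refine hq.trans (le_of_eq ?_)
  have e1 : ((univ.filter fun v : Fin (d + 1) → V =>
        ∑ c : Fin (d + 1) → ZMod 3, q (comb v c) = 0).card : ℝ) =
      ∑ v : Fin (d + 1) → V, (if ∑ c : Fin (d + 1) → ZMod 3, q (comb v c) = 0 then (1:ℝ) else 0) := by
    rw [Finset.sum_boole]
  rw [e1, ← (Fin.consEquiv (fun _ : Fin (d + 1) => V)).sum_comp, Fintype.sum_prod_type_right]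
  refine Finset.sum_congr rfl fun w _ => ?_
  rw [← Finset.sum_boole]
  refine Finset.sum_congr rfl fun h _ => ?_
  have e2 : (Fin.consEquiv (fun _ : Fin (d + 1) => V)) (h, w) = (Fin.cons h w : Fin (d + 1) → V) :=
    rfl
  rw [e2, span_eq hV]
  by_cases hh : fl (fun x => q x + q (-x)) w h = ∑ c : Fin d → ZMod 3, q (comb w c)
  · rw [if_pos hh, if_pos]
    rw [hh]; exact add_self' hA _
  · rw [if_neg hh, if_neg]
    intro hc
    exact hh (eq_of_add_eq_zero' hA hc).symm

theorem spans (d : ℕ) {ε : ℝ} (hε : 0 < ε) : ∃ δ : ℝ, 0 < δ ∧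
    ∀ (V : Type u) [AddCommGroup V] [Fintype V] [DecidableEq V]
      (A : Type v) [AddCommGroup A] [DecidableEq A],
      (∀ v : V, 3 • v = 0) → (∀ a : A, 2 • a = 0) → ∀ q : V → A,
      ε * (Fintype.card V : ℝ) ^ (d + 1) ≤ ((univ.filter fun v : Fin (d + 1) → V =>
        ∑ c : Fin (d + 1) → ZMod 3, q (comb v c) = 0).card : ℝ) →
      ∃ a : A, δ * (Fintype.card V : ℝ) ≤ ((univ.filter fun x => q x + q (-x) = a).card : ℝ) := by
  obtain ⟨F, hF, h⟩ := spans_pow.{u, v} d
  exact ⟨F ε, hF.pos hε, h ε hε⟩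

/-- a value of `q(x) + q(-x)` is taken at most three times -/
theorem popular_le_three {V : Type u} [AddCommGroup V] [Fintype V] [DecidableEq V]
    {A : Type v} [AddCommGroup A] [DecidableEq A]
    (hV : ∀ v : V, 3 • v = 0) (hA : ∀ a : A, 2 • a = 0) (q : V → A)
    (h4 : ∀ S : Finset V, 0 ∉ S → S.Nonempty → S.card ≤ 4 → ∑ x ∈ S, q x ≠ 0) (a : A) :
    (univ.filter fun x => q x + q (-x) = a).card ≤ 3 := by
  by_contra hcon
  have hPc : 4 ≤ (univ.filter fun x => q x + q (-x) = a).card := by omega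
  set P : Finset V := univ.filter fun x => q x + q (-x) = a with hP
  have neg_ne : ∀ x : V, x ≠ 0 → x ≠ -x := by
    intro x hx hxx
    apply hx
    have h1 := hV x
    rw [show (3:ℕ) = 2 + 1 from rfl, add_smul, two_nsmul, one_nsmul] at h1
    nth_rewrite 1 [hxx] at h1
    rwa [neg_add_cancel, zero_add] at h1
  obtain ⟨x, hx⟩ : (P.erase 0).Nonempty := by
    rw [← Finset.card_pos]
    have := Finset.pred_card_le_card_erase (s := P) (a := 0)
    omega
  obtain ⟨hx0, hxP⟩ := Finset.mem_erase.1 hx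
  obtain ⟨y, hy⟩ : (((P.erase 0).erase x).erase (-x)).Nonempty := by
    rw [← Finset.card_pos]
    have e1 := Finset.pred_card_le_card_erase (s := P) (a := 0)
    have e2 := Finset.pred_card_le_card_erase (s := P.erase 0) (a := x)
    have e3 := Finset.pred_card_le_card_erase (s := (P.erase 0).erase x) (a := -x)
    omega
  obtain ⟨hy1, hy⟩ := Finset.mem_erase.1 hy
  obtain ⟨hy2, hy⟩ := Finset.mem_erase.1 hy
  obtain ⟨hy0, hyP⟩ := Finset.mem_erase.1 hy
  have qx : q x + q (-x) = a := (Finset.mem_filter.1 hxP).2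
  have qy : q y + q (-y) = a := (Finset.mem_filter.1 hyP).2
  have n1 : x ∉ ({-x, y, -y} : Finset V) := by
    simp only [Finset.mem_insert, Finset.mem_singleton, not_or]
    refine ⟨neg_ne x hx0, fun h => hy2 h.symm, fun h => hy1 ?_⟩
    rw [h, neg_neg]
  have n2 : -x ∉ ({y, -y} : Finset V) := by
    simp only [Finset.mem_insert, Finset.mem_singleton, not_or]
    refine ⟨fun h => hy1 h.symm, fun h => hy2 ?_⟩
    exact (neg_injective h).symm
  have n3 : y ∉ ({-y} : Finset V) := by
    simp only [Finset.mem_singleton]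
    exact neg_ne y hy0
  have n0 : (0 : V) ∉ ({x, -x, y, -y} : Finset V) := by
    simp only [Finset.mem_insert, Finset.mem_singleton, not_or]
    exact ⟨fun h => hx0 h.symm, fun h => hx0 (neg_eq_zero.1 h.symm), fun h => hy0 h.symm,
      fun h => hy0 (neg_eq_zero.1 h.symm)⟩
  refine h4 {x, -x, y, -y} n0 ⟨x, Finset.mem_insert_self _ _⟩ ?_ ?_
  · rw [Finset.card_insert_of_notMem n1, Finset.card_insert_of_notMem n2,
      Finset.card_insert_of_notMem n3, Finset.card_singleton]
  · rw [Finset.sum_insert n1, Finset.sum_insert n2, Finset.sum_insert n3, Finset.sum_singleton,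
      ← add_assoc, qx, qy]
    exact add_self' hA a

/-- **Power saving.** If no sum of at most four values of `q` vanishes then the number of the
tuples with exceptional span is at most `K |V|^(d+1) / |V|^κ`. -/
theorem almost_all_pow (d : ℕ) : ∃ K κ : ℝ, 0 < K ∧ 0 < κ ∧
    ∀ (V : Type u) [AddCommGroup V] [Fintype V] (A : Type v) [AddCommGroup A],
      (∀ v : V, 3 • v = 0) → (∀ a : A, 2 • a = 0) → ∀ q : V → A,
      (∀ S : Finset V, 0 ∉ S → S.Nonempty → S.card ≤ 4 → ∑ x ∈ S, q x ≠ 0) →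
      ∀ bad : Finset (Fin (d + 1) → V),
      (∀ v ∈ bad, ∀ X : Finset V, (∀ x, x ∈ X ↔ x ∈ AddSubgroup.closure (Set.range v)) →
        ∑ x ∈ X, q x = 0) →
      (bad.card : ℝ) ≤ K * (Fintype.card V : ℝ) ^ (-κ) * (Fintype.card V : ℝ) ^ (d + 1) := by
  classical
  obtain ⟨F, ⟨c, m, hc, hm, hF⟩, h⟩ := spans_pow.{u, v} d
  refine ⟨(3 / c) ^ (1 / (m : ℝ)), 1 / (m : ℝ), by positivity, by positivity, ?_⟩
  intro V _ _ A _ hV hA q h4 bad hbad
  have hN0 : (0:ℝ) < Fintype.card V := by
    have : Nonempty V := ⟨0⟩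
    exact Nat.cast_pos.2 Fintype.card_pos
  set N : ℝ := (Fintype.card V : ℝ) with hN
  have hNd : 0 < N ^ (d + 1) := pow_pos hN0 _
  rcases Nat.eq_zero_or_pos bad.card with h0 | h0
  · rw [h0, Nat.cast_zero]; positivity
  have hb0 : (0:ℝ) < bad.card := Nat.cast_pos.2 h0
  set ε : ℝ := bad.card / N ^ (d + 1) with hε
  have hε0 : 0 < ε := div_pos hb0 hNd
  have hεN : ε * N ^ (d + 1) = bad.card := div_mul_cancel₀ _ hNd.ne'
  obtain ⟨a, ha⟩ := h ε hε0 V A hV hA q (by
    rw [← hN, hεN]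
    have : bad ⊆ univ.filter fun v : Fin (d + 1) → V =>
        ∑ c : Fin (d + 1) → ZMod 3, q (comb v c) = 0 := by
      intro v hv
      refine Finset.mem_filter.2 ⟨Finset.mem_univ _, ?_⟩
      have hX : ∀ x, x ∈ (univ.filter fun x => x ∈ AddSubgroup.closure (Set.range v)) ↔
          x ∈ AddSubgroup.closure (Set.range v) := by
        intro x
        simp only [Finset.mem_filter, Finset.mem_univ, true_and]
      rw [sum_comb hV hA v q _ hX]
      exact hbad v hv _ hX
    exact_mod_cast Finset.card_le_card this)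
  have h3 : ((univ.filter fun x => q x + q (-x) = a).card : ℝ) ≤ 3 := by
    exact_mod_cast popular_le_three hV hA q h4 a
  rw [hF ε hε0] at ha
  have h5 : ε ^ m ≤ 3 / c * N⁻¹ := by
    rw [div_mul_eq_mul_div, le_div_iff₀ hc, ← div_eq_mul_inv, le_div_iff₀ hN0]
    calc ε ^ m * c * N = c * ε ^ m * N := by ring
      _ ≤ 3 := ha.trans h3
  have h6 : ε ≤ (3 / c) ^ (1 / (m : ℝ)) * N ^ (-(1 / (m : ℝ))) := by
    have e1 : ε = (ε ^ m) ^ (1 / (m : ℝ)) := by
      rw [one_div, Real.pow_rpow_inv_natCast hε0.le hm.ne']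
    have e2 : N ^ (-(1 / (m : ℝ))) = (N⁻¹) ^ (1 / (m : ℝ)) := by
      rw [Real.rpow_neg hN0.le, Real.inv_rpow hN0.le]
    rw [e2, ← Real.mul_rpow (div_nonneg (by norm_num) hc.le) (inv_nonneg.2 hN0.le)]
    calc ε = (ε ^ m) ^ (1 / (m : ℝ)) := e1
      _ ≤ _ := Real.rpow_le_rpow (pow_nonneg hε0.le _) h5 (one_div_nonneg.2 (Nat.cast_nonneg _))
  rw [← hεN]
  exact mul_le_mul_of_nonneg_right h6 hNd.le

/-- **Almost all.** If no sum of at most four values of `q` vanishes then for all but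
`ε |V|^(d+1)` tuples the sum of `q` over the span is not zero. -/
theorem almost_all (d : ℕ) {ε : ℝ} (hε : 0 < ε) : ∃ N0 : ℝ,
    ∀ (V : Type u) [AddCommGroup V] [Fintype V] (A : Type v) [AddCommGroup A],
      (∀ v : V, 3 • v = 0) → (∀ a : A, 2 • a = 0) → ∀ q : V → A,
      (∀ S : Finset V, 0 ∉ S → S.Nonempty → S.card ≤ 4 → ∑ x ∈ S, q x ≠ 0) →
      N0 ≤ (Fintype.card V : ℝ) → ∀ bad : Finset (Fin (d + 1) → V),
      (∀ v ∈ bad, ∀ X : Finset V, (∀ x, x ∈ X ↔ x ∈ AddSubgroup.closure (Set.range v)) →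
        ∑ x ∈ X, q x = 0) →
      (bad.card : ℝ) ≤ ε * (Fintype.card V : ℝ) ^ (d + 1) := by
  classical
  obtain ⟨δ, hδ, h⟩ := spans.{u, v} d hε
  refine ⟨4 / δ, ?_⟩
  intro V _ _ A _ hV hA q h4 hN bad hbad
  by_contra hcon
  push Not at hcon
  obtain ⟨a, ha⟩ := h V A hV hA q (by
    refine hcon.le.trans ?_
    have : bad ⊆ univ.filter fun v : Fin (d + 1) → V =>
        ∑ c : Fin (d + 1) → ZMod 3, q (comb v c) = 0 := by
      intro v hv
      refine Finset.mem_filter.2 ⟨Finset.mem_univ _, ?_⟩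
      have hX : ∀ x, x ∈ (univ.filter fun x => x ∈ AddSubgroup.closure (Set.range v)) ↔
          x ∈ AddSubgroup.closure (Set.range v) := by
        intro x
        simp only [Finset.mem_filter, Finset.mem_univ, true_and]
      rw [sum_comb hV hA v q _ hX]
      exact hbad v hv _ hX
    exact_mod_cast Finset.card_le_card this)
  set P : Finset V := univ.filter fun x => q x + q (-x) = a with hP
  have hPc : 4 ≤ P.card := by
    have h1 : (4:ℝ) ≤ P.card := by
      refine le_trans ?_ ha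
      rw [div_le_iff₀ hδ] at hN
      linarith only [hN]
    exact_mod_cast h1
  have neg_ne : ∀ x : V, x ≠ 0 → x ≠ -x := by
    intro x hx hxx
    apply hx
    have h1 := hV x
    rw [show (3:ℕ) = 2 + 1 from rfl, add_smul, two_nsmul, one_nsmul] at h1
    nth_rewrite 1 [hxx] at h1
    rwa [neg_add_cancel, zero_add] at h1
  obtain ⟨x, hx⟩ : (P.erase 0).Nonempty := by
    rw [← Finset.card_pos]
    have := Finset.pred_card_le_card_erase (s := P) (a := 0)
    omega
  obtain ⟨hx0, hxP⟩ := Finset.mem_erase.1 hx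
  obtain ⟨y, hy⟩ : (((P.erase 0).erase x).erase (-x)).Nonempty := by
    rw [← Finset.card_pos]
    have e1 := Finset.pred_card_le_card_erase (s := P) (a := 0)
    have e2 := Finset.pred_card_le_card_erase (s := P.erase 0) (a := x)
    have e3 := Finset.pred_card_le_card_erase (s := (P.erase 0).erase x) (a := -x)
    omega
  obtain ⟨hy1, hy⟩ := Finset.mem_erase.1 hy
  obtain ⟨hy2, hy⟩ := Finset.mem_erase.1 hy
  obtain ⟨hy0, hyP⟩ := Finset.mem_erase.1 hy
  have qx : q x + q (-x) = a := (Finset.mem_filter.1 hxP).2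
  have qy : q y + q (-y) = a := (Finset.mem_filter.1 hyP).2
  have n1 : x ∉ ({-x, y, -y} : Finset V) := by
    simp only [Finset.mem_insert, Finset.mem_singleton, not_or]
    refine ⟨neg_ne x hx0, fun h => hy2 h.symm, fun h => hy1 ?_⟩
    rw [h, neg_neg]
  have n2 : -x ∉ ({y, -y} : Finset V) := by
    simp only [Finset.mem_insert, Finset.mem_singleton, not_or]
    refine ⟨fun h => hy1 h.symm, fun h => hy2 ?_⟩
    exact (neg_injective h).symm
  have n3 : y ∉ ({-y} : Finset V) := by
    simp only [Finset.mem_singleton]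
    exact neg_ne y hy0
  have n0 : (0 : V) ∉ ({x, -x, y, -y} : Finset V) := by
    simp only [Finset.mem_insert, Finset.mem_singleton, not_or]
    exact ⟨fun h => hx0 h.symm, fun h => hx0 (neg_eq_zero.1 h.symm), fun h => hy0 h.symm,
      fun h => hy0 (neg_eq_zero.1 h.symm)⟩
  refine h4 {x, -x, y, -y} n0 ⟨x, Finset.mem_insert_self _ _⟩ ?_ ?_
  · rw [Finset.card_insert_of_notMem n1, Finset.card_insert_of_notMem n2,
      Finset.card_insert_of_notMem n3, Finset.card_singleton]
  · rw [Finset.sum_insert n1, Finset.sum_insert n2, Finset.sum_insert n3, Finset.sum_singleton,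
      ← add_assoc, qx, qy]
    exact add_self' hA a

end final

section subs
universe u v

section subgroups
variable {V : Type u} [AddCommGroup V]

/-- span and closure agree over `ZMod 3` -/
theorem mem_span_iff [Module (ZMod 3) V] (S : Set V) (x : V) :
    x ∈ Submodule.span (ZMod 3) S ↔ x ∈ AddSubgroup.closure S := by
  constructor
  · intro h
    have h1 : Submodule.span (ZMod 3) S ≤ AddSubgroup.toZModSubmodule 3 (AddSubgroup.closure S) := by
      rw [Submodule.span_le]
      intro y hy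
      exact (AddSubgroup.mem_toZModSubmodule 3).2 (AddSubgroup.subset_closure hy)
    exact (AddSubgroup.mem_toZModSubmodule 3).1 (h1 h)
  · intro h
    have h1 : AddSubgroup.closure S ≤ (Submodule.span (ZMod 3) S).toAddSubgroup := by
      rw [AddSubgroup.closure_le]
      exact Submodule.subset_span
    exact h1 h

instance fact3 : Fact (Nat.Prime 3) := ⟨Nat.prime_three⟩

/-- number of bases of `(Z/3)^k` -/
def nb (k : ℕ) : ℕ := ∏ i : Fin k, (3 ^ k - 3 ^ (i : ℕ))

theorem nb_pos (k : ℕ) : 0 < nb k := by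
  refine Finset.prod_pos fun i _ => ?_
  exact Nat.sub_pos_of_lt (Nat.pow_lt_pow_right (by norm_num) i.2)

/-- the fibre over a subgroup -/
theorem fibre_card [Finite V] [Module (ZMod 3) V] {k : ℕ} (W : AddSubgroup V)
    (hW : Nat.card W = 3 ^ k) :
    Nat.card {v : Fin k → V // LinearIndependent (ZMod 3) v ∧ AddSubgroup.closure (Set.range v) = W} =
      nb k := by
  set W' : Submodule (ZMod 3) V := AddSubgroup.toZModSubmodule 3 W with hW'
  have hmem : ∀ x, x ∈ W' ↔ x ∈ W := fun x => AddSubgroup.mem_toZModSubmodule 3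
  have hc : Nat.card W' = 3 ^ k := hW
  have hf : Module.finrank (ZMod 3) W' = k := by
    have := Module.natCard_eq_pow_finrank (K := ZMod 3) (V := W')
    rw [hc, Nat.card_zmod] at this
    exact (Nat.pow_right_injective (show 2 ≤ 3 by norm_num) this).symm
  have h1 := card_linearIndependent (K := ZMod 3) (V := W') (k := k) hf.ge
  rw [hf, ZMod.card] at h1
  unfold nb
  rw [← h1]
  refine Nat.card_congr ⟨fun v => ⟨fun i => ⟨v.1 i, ?_⟩, ?_⟩, fun s => ⟨fun i => (s.1 i : V), ?_, ?_⟩, ?_, ?_⟩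
  · rw [hmem]
    exact v.2.2.le (AddSubgroup.subset_closure (Set.mem_range_self i))
  · exact LinearIndependent.of_comp W'.subtype v.2.1
  · exact s.2.map' W'.subtype (Submodule.ker_subtype W')
  · have e1 : Submodule.span (ZMod 3) (Set.range s.1) = ⊤ :=
      s.2.span_eq_top_of_card_eq_finrank' (by rw [Fintype.card_fin, hf])
    ext x
    rw [← mem_span_iff]
    have e2 : Set.range (fun i => (s.1 i : V)) = W'.subtype '' (Set.range s.1) := by
      rw [← Set.range_comp]; rfl
    rw [e2, Submodule.span_image, e1, Submodule.map_top, Submodule.range_subtype]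
    exact hmem x
  · intro v; rfl
  · intro s; rfl

/-- the closure of an independent tuple -/
theorem closure_card [Finite V] [Module (ZMod 3) V] {k : ℕ} {v : Fin k → V}
    (hv : LinearIndependent (ZMod 3) v) :
    Nat.card (AddSubgroup.closure (Set.range v)) = 3 ^ k := by
  have h1 := finrank_span_eq_card hv
  rw [Fintype.card_fin] at h1
  have h2 := Module.natCard_eq_pow_finrank (K := ZMod 3) (V := Submodule.span (ZMod 3) (Set.range v))
  rw [h1, Nat.card_zmod] at h2
  rw [← h2]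
  refine Nat.card_congr (Equiv.subtypeEquivRight fun x => ?_)
  rw [mem_span_iff]

open Classical in
/-- counting along the fibres -/
theorem count [Finite V] [Fintype V] [Module (ZMod 3) V] {k : ℕ} (C : Finset (AddSubgroup V))
    (hC : ∀ W ∈ C, Nat.card W = 3 ^ k) :
    (univ.filter fun v : Fin k → V => LinearIndependent (ZMod 3) v ∧
      AddSubgroup.closure (Set.range v) ∈ C).card = C.card * nb k := by
  rw [Finset.card_eq_sum_card_fiberwise (f := fun v : Fin k → V => AddSubgroup.closure (Set.range v))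
    (t := C) (fun v hv => Finset.mem_coe.2 (Finset.mem_filter.1 (Finset.mem_coe.1 hv)).2.2),
    ← smul_eq_mul, ← Finset.sum_const]
  refine Finset.sum_congr rfl fun W hW => ?_
  rw [← fibre_card W (hC W hW), Nat.card_eq_fintype_card, Fintype.card_subtype]
  congr 1
  ext v
  simp only [Finset.mem_filter, Finset.mem_univ, true_and]
  constructor
  · rintro ⟨⟨a, -⟩, c⟩
    exact ⟨a, c⟩
  · rintro ⟨a, c⟩
    exact ⟨⟨a, c ▸ hW⟩, c⟩

open Classical in
/-- there are many independent tuples -/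
theorem many [Fintype V] [Module (ZMod 3) V] {k : ℕ} (hN : 2 * 3 ^ k ≤ Fintype.card V) :
    ((Fintype.card V : ℝ) / 2) ^ k ≤
      ((univ.filter fun v : Fin k → V => LinearIndependent (ZMod 3) v).card : ℝ) := by
  have h0 := Module.natCard_eq_pow_finrank (K := ZMod 3) (V := V)
  rw [Nat.card_zmod, Nat.card_eq_fintype_card] at h0
  have hk : k ≤ Module.finrank (ZMod 3) V := by
    have h1 : 3 ^ k ≤ 3 ^ Module.finrank (ZMod 3) V := by
      rw [← h0]
      have : 0 < 3 ^ k := by positivity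
      omega
    exact (Nat.pow_le_pow_iff_right (by norm_num)).1 h1
  have h1 := card_linearIndependent (K := ZMod 3) (V := V) (k := k) hk
  rw [ZMod.card, ← h0, Nat.card_eq_fintype_card, Fintype.card_subtype] at h1
  rw [h1]
  push_cast
  have h5 : ((Fintype.card V : ℝ) / 2) ^ k = ∏ _i : Fin k, (Fintype.card V : ℝ) / 2 := by
    rw [Finset.prod_const, Finset.card_univ, Fintype.card_fin]
  rw [h5]
  refine Finset.prod_le_prod (fun i _ => by positivity) fun i _ => ?_
  have h2 : 3 ^ (i : ℕ) ≤ 3 ^ k := Nat.pow_le_pow_right (by norm_num) i.2.le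
  have h3 : 3 ^ (i : ℕ) ≤ Fintype.card V := by omega
  rw [Nat.cast_sub h3]
  have h4 : (2:ℝ) * ((3 ^ (i : ℕ) : ℕ) : ℝ) ≤ Fintype.card V := by
    exact_mod_cast (show 2 * 3 ^ (i : ℕ) ≤ Fintype.card V by omega)
  linarith only [h4]

end subgroups

/-- **Almost all subgroups.** If no sum of at most four values of `q` vanishes then for all but
at most a proportion `ε` of the subgroups `W` of order `3^(d+1)` the sum of `q` over `W` is not zero. -/
theorem almost_all_subgroups (d : ℕ) {ε : ℝ} (hε : 0 < ε) : ∃ N0 : ℝ,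
    ∀ (V : Type u) [AddCommGroup V] [Fintype V] (A : Type v) [AddCommGroup A],
      (∀ v : V, 3 • v = 0) → (∀ a : A, 2 • a = 0) → ∀ q : V → A,
      (∀ S : Finset V, 0 ∉ S → S.Nonempty → S.card ≤ 4 → ∑ x ∈ S, q x ≠ 0) →
      N0 ≤ (Fintype.card V : ℝ) → ∀ bad : Finset (AddSubgroup V),
      (∀ W ∈ bad, Nat.card W = 3 ^ (d + 1) ∧ ∀ X : Finset V, (∀ x, x ∈ X ↔ x ∈ W) →
        ∑ x ∈ X, q x = 0) →
      (bad.card : ℝ) ≤ ε * (Nat.card {W : AddSubgroup V // Nat.card W = 3 ^ (d + 1)} : ℝ) := by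
  classical
  obtain ⟨N0, h0⟩ := almost_all.{u, v} d (show 0 < ε / 2 ^ (d + 1) by positivity)
  refine ⟨max N0 (2 * 3 ^ (d + 1)), ?_⟩
  intro V _ _ A _ hV hA q h4 hN bad hbad
  letI : Module (ZMod 3) V := AddCommGroup.zmodModule hV
  have hN1 : 2 * 3 ^ (d + 1) ≤ Fintype.card V := by
    have := (le_max_right _ _).trans hN
    exact_mod_cast this
  haveI : Fintype (AddSubgroup V) := Fintype.ofFinite _
  set all : Finset (AddSubgroup V) := univ.filter fun W => Nat.card W = 3 ^ (d + 1) with hall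
  have e1 : Nat.card {W : AddSubgroup V // Nat.card W = 3 ^ (d + 1)} = all.card := by
    rw [Nat.card_eq_fintype_card, Fintype.card_subtype]
  rw [e1]
  have c1 := count (k := d + 1) bad (fun W hW => (hbad W hW).1)
  have c2 := count (k := d + 1) all (fun W hW => (Finset.mem_filter.1 hW).2)
  have c3 : (univ.filter fun v : Fin (d + 1) → V => LinearIndependent (ZMod 3) v ∧
      AddSubgroup.closure (Set.range v) ∈ all) =
      univ.filter fun v : Fin (d + 1) → V => LinearIndependent (ZMod 3) v := by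
    ext v
    simp only [Finset.mem_filter, Finset.mem_univ, true_and, hall]
    exact ⟨fun h => h.1, fun h => ⟨h, closure_card h⟩⟩
  rw [c3] at c2
  have c4 := many (V := V) hN1
  rw [c2] at c4
  have c5 := h0 V A hV hA q h4 ((le_max_left _ _).trans hN)
    (univ.filter fun v : Fin (d + 1) → V => LinearIndependent (ZMod 3) v ∧
      AddSubgroup.closure (Set.range v) ∈ bad)
    (fun v hv X hX => (hbad _ (Finset.mem_filter.1 hv).2.2).2 X hX)
  rw [c1] at c5
  have hb : (0:ℝ) < (nb (d + 1) : ℝ) := Nat.cast_pos.2 (nb_pos _)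
  push_cast at c4 c5
  have c6 : (bad.card : ℝ) * nb (d + 1) ≤ ε * all.card * nb (d + 1) := by
    calc (bad.card : ℝ) * nb (d + 1) ≤ ε / 2 ^ (d + 1) * (Fintype.card V : ℝ) ^ (d + 1) := c5
      _ = ε * ((Fintype.card V : ℝ) / 2) ^ (d + 1) := by rw [div_pow]; ring
      _ ≤ ε * (all.card * nb (d + 1)) := mul_le_mul_of_nonneg_left c4 hε.le
      _ = _ := by ring
  exact le_of_mul_le_mul_right c6 hb

/-- **Power saving for subgroups.** -/
theorem almost_all_subgroups_pow (d : ℕ) : ∃ K κ : ℝ, 0 < K ∧ 0 < κ ∧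
    ∀ (V : Type u) [AddCommGroup V] [Fintype V] (A : Type v) [AddCommGroup A],
      (∀ v : V, 3 • v = 0) → (∀ a : A, 2 • a = 0) → ∀ q : V → A,
      (∀ S : Finset V, 0 ∉ S → S.Nonempty → S.card ≤ 4 → ∑ x ∈ S, q x ≠ 0) →
      ∀ bad : Finset (AddSubgroup V),
      (∀ W ∈ bad, Nat.card W = 3 ^ (d + 1) ∧ ∀ X : Finset V, (∀ x, x ∈ X ↔ x ∈ W) →
        ∑ x ∈ X, q x = 0) →
      (bad.card : ℝ) ≤ K * (Fintype.card V : ℝ) ^ (-κ) *
        (Nat.card {W : AddSubgroup V // Nat.card W = 3 ^ (d + 1)} : ℝ) := by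
  classical
  obtain ⟨K, κ, hK, hκ, h0⟩ := almost_all_pow.{u, v} d
  refine ⟨max (K * 2 ^ (d + 1)) ((2 * 3 ^ (d + 1)) ^ κ), κ, lt_max_of_lt_left (by positivity), hκ, ?_⟩
  intro V _ _ A _ hV hA q h4 bad hbad
  letI : Module (ZMod 3) V := AddCommGroup.zmodModule hV
  haveI : Fintype (AddSubgroup V) := Fintype.ofFinite _
  have hN0 : (0:ℝ) < Fintype.card V := by
    have : Nonempty V := ⟨0⟩
    exact Nat.cast_pos.2 Fintype.card_pos
  set N : ℝ := (Fintype.card V : ℝ) with hN
  set all : Finset (AddSubgroup V) := univ.filter fun W => Nat.card W = 3 ^ (d + 1) with hall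
  have e1 : Nat.card {W : AddSubgroup V // Nat.card W = 3 ^ (d + 1)} = all.card := by
    rw [Nat.card_eq_fintype_card, Fintype.card_subtype]
  rw [e1]
  have hsub : bad ⊆ all := fun W hW => Finset.mem_filter.2 ⟨Finset.mem_univ _, (hbad W hW).1⟩
  have hle : (bad.card : ℝ) ≤ all.card := by exact_mod_cast Finset.card_le_card hsub
  by_cases hN1 : 2 * 3 ^ (d + 1) ≤ Fintype.card V
  · have c1 := count (k := d + 1) bad (fun W hW => (hbad W hW).1)
    have c2 := count (k := d + 1) all (fun W hW => (Finset.mem_filter.1 hW).2)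
    have c3 : (univ.filter fun v : Fin (d + 1) → V => LinearIndependent (ZMod 3) v ∧
        AddSubgroup.closure (Set.range v) ∈ all) =
        univ.filter fun v : Fin (d + 1) → V => LinearIndependent (ZMod 3) v := by
      ext v
      simp only [Finset.mem_filter, Finset.mem_univ, true_and, hall]
      exact ⟨fun h => h.1, fun h => ⟨h, closure_card h⟩⟩
    rw [c3] at c2
    have c4 := many (V := V) hN1
    rw [c2] at c4
    have c5 := h0 V A hV hA q h4
      (univ.filter fun v : Fin (d + 1) → V => LinearIndependent (ZMod 3) v ∧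
        AddSubgroup.closure (Set.range v) ∈ bad)
      (fun v hv X hX => (hbad _ (Finset.mem_filter.1 hv).2.2).2 X hX)
    rw [c1, ← hN] at c5
    rw [← hN] at c4
    have hb : (0:ℝ) < (nb (d + 1) : ℝ) := Nat.cast_pos.2 (nb_pos _)
    push_cast at c4 c5
    have hNk : 0 < N ^ (-κ) := Real.rpow_pos_of_pos hN0 _
    have c6 : (bad.card : ℝ) * nb (d + 1) ≤ K * 2 ^ (d + 1) * N ^ (-κ) * all.card * nb (d + 1) := by
      calc (bad.card : ℝ) * nb (d + 1) ≤ K * N ^ (-κ) * N ^ (d + 1) := c5
        _ = K * 2 ^ (d + 1) * N ^ (-κ) * (N / 2) ^ (d + 1) := by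
            rw [div_pow]; field_simp
        _ ≤ K * 2 ^ (d + 1) * N ^ (-κ) * (all.card * nb (d + 1)) :=
            mul_le_mul_of_nonneg_left c4 (by positivity)
        _ = _ := by ring
    refine (le_of_mul_le_mul_right c6 hb).trans ?_
    exact mul_le_mul_of_nonneg_right (mul_le_mul_of_nonneg_right (le_max_left _ _) hNk.le)
      (Nat.cast_nonneg _)
  · have hN2 : N ≤ 2 * 3 ^ (d + 1) := by
      have : Fintype.card V ≤ 2 * 3 ^ (d + 1) := (not_le.1 hN1).le
      rw [hN]; exact_mod_cast this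
    have hNk : 0 < N ^ (-κ) := Real.rpow_pos_of_pos hN0 _
    have c1 : 1 ≤ (2 * 3 ^ (d + 1)) ^ κ * N ^ (-κ) := by
      rw [Real.rpow_neg hN0.le, ← div_eq_mul_inv, one_le_div (Real.rpow_pos_of_pos hN0 _)]
      exact Real.rpow_le_rpow hN0.le hN2 hκ.le
    have c2 : 1 ≤ max (K * 2 ^ (d + 1)) ((2 * 3 ^ (d + 1)) ^ κ) * N ^ (-κ) :=
      c1.trans (mul_le_mul_of_nonneg_right (le_max_right _ _) hNk.le)
    calc (bad.card : ℝ) ≤ 1 * all.card := by rw [one_mul]; exact hle
      _ ≤ _ := mul_le_mul_of_nonneg_right c2 (Nat.cast_nonneg _)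

end subs

end M0F

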