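import Pool.Agent.Lib.MP_0f5a55_nt.EX.Apply
import Pool.Agent.Lib.MP_0f5a55_nt.EX.Flats

set_option autoImplicit false

/-!
# Almost all abelian fields of exponent 3
-/

open Complex

namespace P0F.CN

section Transfer
variable {G : Type} [CommGroup G] (V : Subgroup G)

/-- The subgroup of `G` of an additive subgroup of `V`. -/
def up (W : AddSubgroup (Additive V)) : Subgroup G := (AddSubgroup.toSubgroup' W).map V.subtype

theorem mem_up {W : AddSubgroup (Additive V)} {x : G} :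
    x ∈ up V W ↔ ∃ h : x ∈ V, Additive.ofMul (⟨x, h⟩ : V) ∈ W := by
  constructor
  · rintro ⟨y, hy, rfl⟩
    exact ⟨y.2, hy⟩
  · rintro ⟨h, hx⟩
    exact ⟨⟨x, h⟩, hx, rfl⟩

theorem up_injective : Function.Injective (up V) := by
  intro W W' h
  ext x
  have h1 : ∀ U : AddSubgroup (Additive V), x ∈ U ↔ ((x.toMul : V) : G) ∈ up V U := by
    intro U
    rw [mem_up]
    exact ⟨fun hx => ⟨x.toMul.2, hx⟩, fun ⟨_, hx⟩ => hx⟩
  rw [h1, h1, h]

theorem up_le (W : AddSubgroup (Additive V)) : up V W ≤ V := by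
  intro x hx
  exact ((mem_up V).1 hx).1

theorem up_surj {U : Subgroup G} (h : U ≤ V) : ∃ W, up V W = U := by
  refine ⟨(U.subgroupOf V).toAddSubgroup, ?_⟩
  ext x
  rw [mem_up]
  constructor
  · rintro ⟨_, hx⟩
    exact hx
  · intro hx
    exact ⟨h hx, hx⟩

theorem card_up (W : AddSubgroup (Additive V)) : Nat.card (up V W) = Nat.card W := by
  have e : ((up V W : Subgroup G) : Set G) = (fun x : Additive V => ((x.toMul : V) : G)) '' (W : Set (Additive V)) := by
    ext x
    rw [SetLike.mem_coe, mem_up]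
    constructor
    · rintro ⟨h, hx⟩
      exact ⟨Additive.ofMul ⟨x, h⟩, hx, rfl⟩
    · rintro ⟨y, hy, rfl⟩
      exact ⟨y.toMul.2, hy⟩
  have h1 : Nat.card (up V W) = ((up V W : Subgroup G) : Set G).ncard := rfl
  have h2 : Nat.card W = (W : Set (Additive V)).ncard := rfl
  rw [h1, h2, e, Set.ncard_image_of_injective]
  intro x y hxy
  exact Subtype.ext hxy

end Transfer

/-- The class of the function `n` modulo 2. -/
noncomputable def cn (n : ℝ → ℤ) : Qt :=
  QuotientAddGroup.mk (fun g : ℝ => if 0 < g then (n g : ZMod 2) else 0)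

theorem sum_cn {N : ℕ} [NeZero N] (n : ℝ → ℤ) (S : Finset (DirichletCharacter ℂ N)) :
    cn n + ∑ χ ∈ S, cl χ = 0 ↔
      {g : ℝ | 0 < g ∧ Odd (n g + ∑ χ ∈ S, (multN χ g : ℤ))}.Finite := by
  have h1 : cn n + ∑ χ ∈ S, cl χ = QuotientAddGroup.mk (s := fs)
      ((fun g : ℝ => if 0 < g then (n g : ZMod 2) else 0) +
        ∑ χ ∈ S, (fun g : ℝ => if 0 < g then (multN χ g : ZMod 2) else 0)) := by
    have := map_sum (QuotientAddGroup.mk' fs) (fun χ : DirichletCharacter ℂ N =>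
      (fun g : ℝ => if 0 < g then (multN χ g : ZMod 2) else 0)) S
    rw [QuotientAddGroup.mk_add]
    exact congrArg (fun t => cn n + t) this.symm
  rw [h1, QuotientAddGroup.eq_zero_iff, mem_fs]
  have h2 : {g : ℝ | ((fun g : ℝ => if 0 < g then (n g : ZMod 2) else 0) +
      ∑ χ ∈ S, (fun g : ℝ => if 0 < g then (multN χ g : ZMod 2) else 0)) g ≠ 0} =
      {g : ℝ | 0 < g ∧ Odd (n g + ∑ χ ∈ S, (multN χ g : ℤ))} := by
    ext g
    simp only [Set.mem_ofPred_eq, Pi.add_apply, Finset.sum_apply]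
    by_cases hg : 0 < g
    · simp only [hg, if_true, true_and]
      have h3 : (n g : ZMod 2) + ∑ χ ∈ S, (multN χ g : ZMod 2) =
          ((n g + ∑ χ ∈ S, (multN χ g : ℤ) : ℤ) : ZMod 2) := by
        push_cast
        rfl
      rw [h3, Ne, ZMod.intCast_zmod_eq_zero_iff_dvd]
      rw [← Int.not_even_iff_odd, even_iff_two_dvd]
      rfl
    · simp [hg]
  rw [h2]

/-- For every `s ≥ 1` there are `K, κ > 0`: for every group `V` of cubic characters of any modulus and every function `n`,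
the number of the subgroups `W` of `V` of order `3 ^ s` with only finitely many odd values is at most `K |V| ^ (-κ)` times the
number of all subgroups of order `3 ^ s`. -/
theorem cubic (s : ℕ) (hs : 1 ≤ s) : ∃ K κ : ℝ, 0 < K ∧ 0 < κ ∧ ∀ (N : ℕ) [NeZero N]
    (V : Subgroup (DirichletCharacter ℂ N)), (∀ χ ∈ V, χ ^ 3 = 1) → ∀ n : ℝ → ℤ,
      ({W : Subgroup (DirichletCharacter ℂ N) | W ≤ V ∧ Nat.card W = 3 ^ s ∧
        {g : ℝ | 0 < g ∧ Odd (n g + ∑ᶠ χ ∈ W, (multN χ g : ℤ))}.Finite}.ncard : ℝ) ≤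
          K * (Nat.card V : ℝ) ^ (-κ) *
            ({W : Subgroup (DirichletCharacter ℂ N) | W ≤ V ∧ Nat.card W = 3 ^ s}.ncard : ℝ) := by
  classical
  obtain ⟨d, rfl⟩ : ∃ d, s = d + 1 := ⟨s - 1, by omega⟩
  obtain ⟨K, κ, hK, hκ, h0⟩ := M0F.almost_all_subgroups_pow.{0, 0} d
  refine ⟨K, κ, hK, hκ, fun N _ V hV n => ?_⟩
  have : Finite (DirichletCharacter ℂ N) := inferInstance
  have : Fintype (Additive V) := Fintype.ofFinite _
  have hc : Nat.card V = Fintype.card (Additive V) := by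
    rw [← Nat.card_eq_fintype_card]
    rfl
  have h3 : ∀ v : Additive V, 3 • v = 0 := by
    intro v
    have := hV _ v.toMul.2
    have h1 : (v.toMul : V) ^ 3 = 1 := Subtype.ext (by push_cast; exact this)
    exact h1
  set emb : Additive V ↪ DirichletCharacter ℂ N := ⟨fun x => ((x.toMul : V) : DirichletCharacter ℂ N),
    fun x y hxy => Subtype.ext hxy⟩ with hemb
  set q : Additive V → Qt := fun x => (if x = 0 then cn n else 0) + cl (emb x) with hq
  have hsum : ∀ S : Finset (Additive V), 0 ∉ S → ∑ x ∈ S, q x = ∑ χ ∈ S.map emb, cl χ := by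
    intro S h0S
    rw [Finset.sum_map]
    refine Finset.sum_congr rfl fun x hx => ?_
    have hx0 : x ≠ 0 := fun h => h0S (h ▸ hx)
    simp only [hq, hx0, if_false, zero_add]
  have hsum0 : ∀ X : Finset (Additive V), 0 ∈ X →
      ∑ x ∈ X, q x = cn n + ∑ χ ∈ X.map emb, cl χ := by
    intro X h0X
    rw [Finset.sum_map, hq]
    simp only []
    rw [Finset.sum_add_distrib, Finset.sum_ite_eq' X 0 (fun _ => cn n), if_pos h0X]
  have h4 : ∀ S : Finset (Additive V), 0 ∉ S → S.Nonempty → S.card ≤ 4 → ∑ x ∈ S, q x ≠ 0 := by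
    intro S h0S hne hS
    rw [hsum S h0S]
    exact cl_small _ (hne.map) (by rw [Finset.card_map]; exact hS)
  set B : AddSubgroup (Additive V) → Prop := fun W =>
    {g : ℝ | 0 < g ∧ Odd (n g + ∑ᶠ χ ∈ up V W, (multN χ g : ℤ))}.Finite with hB
  have h5 : ∀ (W : AddSubgroup (Additive V)) (X : Finset (Additive V)), (∀ x, x ∈ X ↔ x ∈ W) → B W → ∑ x ∈ X, q x = 0 := by
    intro W X hX hW
    rw [hsum0 X ((hX 0).2 W.zero_mem), sum_cn]
    have h6 : ∀ g : ℝ, ∑ᶠ χ ∈ up V W, (multN χ g : ℤ) = ∑ χ ∈ X.map emb, (multN χ g : ℤ) := by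
      intro g
      rw [← finsum_mem_coe_finset]
      have h7 : ((X.map emb : Finset (DirichletCharacter ℂ N)) : Set (DirichletCharacter ℂ N)) =
          ((up V W : Subgroup (DirichletCharacter ℂ N)) : Set (DirichletCharacter ℂ N)) := by
        ext χ
        simp only [Finset.coe_map, Set.mem_image, Finset.mem_coe, SetLike.mem_coe, mem_up]
        constructor
        · rintro ⟨y, hy, rfl⟩
          exact ⟨y.toMul.2, (hX y).1 hy⟩
        · rintro ⟨h, hx⟩
          exact ⟨Additive.ofMul ⟨χ, h⟩, (hX _).2 hx, rfl⟩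
      rw [h7]
      rfl
    simpa only [hB, h6] using hW
  have h6 := h0 (Additive V) Qt h3 two_Qt q h4
    (Set.toFinite {W : AddSubgroup (Additive V) | Nat.card W = 3 ^ (d + 1) ∧ B W}).toFinset (by
      intro W hW
      rw [Set.Finite.mem_toFinset] at hW
      exact ⟨hW.1, fun X hX => h5 W X hX hW.2⟩)
  rw [← Set.ncard_eq_toFinset_card] at h6
  have himg : ∀ P : Subgroup (DirichletCharacter ℂ N) → Prop,
      {W : Subgroup (DirichletCharacter ℂ N) | W ≤ V ∧ Nat.card W = 3 ^ (d + 1) ∧ P W}.ncard =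
      {W : AddSubgroup (Additive V) | Nat.card W = 3 ^ (d + 1) ∧ P (up V W)}.ncard := by
    intro P
    rw [← Set.ncard_image_of_injective {W : AddSubgroup (Additive V) | Nat.card W = 3 ^ (d + 1) ∧ P (up V W)}
      (up_injective V)]
    congr 1
    ext U
    constructor
    · rintro ⟨h1, h2, h3⟩
      obtain ⟨W, rfl⟩ := up_surj V h1
      exact ⟨W, ⟨by rw [← card_up]; exact h2, h3⟩, rfl⟩
    · rintro ⟨W, ⟨h1, h2⟩, rfl⟩
      exact ⟨up_le V W, by rw [card_up]; exact h1, h2⟩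
  have h8 := himg (fun W => {g : ℝ | 0 < g ∧ Odd (n g + ∑ᶠ χ ∈ W, (multN χ g : ℤ))}.Finite)
  have h9 := himg (fun _ => True)
  simp only [and_true] at h9
  rw [h8, h9, hc]
  exact h6

end P0F.CN
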