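import Pool.Agent.Lib.MP_0f5a55_nt.EX.Parity

set_option autoImplicit false

/-!
# Planes in a three-dimensional space over a prime field of odd order
-/

namespace P0F

section Sum
variable {α β : Type*} [Finite α] [Finite β]

theorem ncard_sum (s : Set (α ⊕ β)) : s.ncard = (Sum.inl ⁻¹' s).ncard + (Sum.inr ⁻¹' s).ncard := by
  have h := Set.image_preimage_inl_union_image_preimage_inr s
  conv_lhs => rw [← h]
  rw [Set.ncard_union_eq ?_ (Set.toFinite _) (Set.toFinite _), Set.ncard_image_of_injective _ Sum.inl_injective,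
    Set.ncard_image_of_injective _ Sum.inr_injective]
  rw [Set.disjoint_left]
  rintro _ ⟨a, _, rfl⟩ ⟨b, _, h⟩
  exact absurd h (by simp)

end Sum

variable {p : ℕ} [Fact p.Prime]

/-- Normalised linear functionals: `x + a y + b z`, `y + a z`, `z`. -/
def fn : (ZMod p × ZMod p) ⊕ (ZMod p ⊕ Unit) → (Fin 3 → ZMod p) →ₗ[ZMod p] ZMod p
  | Sum.inl ab => LinearMap.proj 0 + ab.1 • LinearMap.proj 1 + ab.2 • LinearMap.proj 2
  | Sum.inr (Sum.inl a) => LinearMap.proj 1 + a • LinearMap.proj 2
  | Sum.inr (Sum.inr _) => LinearMap.proj 2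

theorem fn_ne (i : (ZMod p × ZMod p) ⊕ (ZMod p ⊕ Unit)) : fn (p := p) i ≠ 0 := by
  rcases i with ab | a | u
  · intro h
    have := LinearMap.congr_fun h (Pi.single 0 1)
    simp [fn] at this
  · intro h
    have := LinearMap.congr_fun h (Pi.single 1 1)
    simp [fn] at this
  · intro h
    have := LinearMap.congr_fun h (Pi.single 2 1)
    simp [fn] at this

theorem finrank_fn (i : (ZMod p × ZMod p) ⊕ (ZMod p ⊕ Unit)) :
    Module.finrank (ZMod p) (LinearMap.ker (fn (p := p) i)) = 2 := by
  have h1 := LinearMap.finrank_range_add_finrank_ker (fn (p := p) i)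
  have h2 : Module.finrank (ZMod p) (LinearMap.range (fn (p := p) i)) = 1 := by
    have h3 : LinearMap.range (fn (p := p) i) = ⊤ := LinearMap.range_eq_top.2 (LinearMap.surjective (fn_ne i))
    rw [h3, finrank_top, Module.finrank_self]
  have h4 : Module.finrank (ZMod p) (Fin 3 → ZMod p) = 3 := by simp
  omega

theorem c1 (x y z : ZMod p) (h : y ≠ 0 ∨ z ≠ 0) :
    {ab : ZMod p × ZMod p | x + ab.1 * y + ab.2 * z = 0}.ncard = p := by
  by_cases hz : z = 0
  · have hy : y ≠ 0 := by
      rcases h with h | h
      · exact h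
      · exact absurd hz h
    have e : {ab : ZMod p × ZMod p | x + ab.1 * y + ab.2 * z = 0} =
        (fun b : ZMod p => (-x / y, b)) '' Set.univ := by
      ext ⟨a, b⟩
      simp only [hz, mul_zero, add_zero, Set.mem_ofPred_eq, Set.image_univ, Set.mem_range, Prod.mk.injEq,
        exists_eq_right]
      constructor
      · intro h1
        rw [div_eq_iff hy]
        linear_combination -h1
      · intro h1
        rw [← h1, div_mul_cancel₀ _ hy]
        ring
    rw [e, Set.ncard_image_of_injective _ (fun b b' hb => (Prod.mk.inj hb).2), Set.ncard_univ, Nat.card_zmod]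
  · have e : {ab : ZMod p × ZMod p | x + ab.1 * y + ab.2 * z = 0} =
        (fun a : ZMod p => (a, -(x + a * y) / z)) '' Set.univ := by
      ext ⟨a, b⟩
      simp only [Set.mem_ofPred_eq, Set.image_univ, Set.mem_range, Prod.mk.injEq, exists_eq_left]
      constructor
      · intro h1
        rw [div_eq_iff hz]
        linear_combination -h1
      · intro h1
        rw [← h1, div_mul_cancel₀ _ hz]
        ring
    rw [e, Set.ncard_image_of_injective _ (fun b b' hb => (Prod.mk.inj hb).1), Set.ncard_univ, Nat.card_zmod]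

theorem c2 (y z : ZMod p) (hz : z ≠ 0) : {a : ZMod p | y + a * z = 0}.ncard = 1 := by
  rw [Set.ncard_eq_one]
  refine ⟨-y / z, ?_⟩
  ext a
  simp only [Set.mem_ofPred_eq, Set.mem_singleton_iff]
  constructor
  · intro h1
    rw [eq_div_iff hz]
    linear_combination h1
  · intro h1
    rw [h1, div_mul_cancel₀ _ hz]
    ring

/-- A nonzero vector lies in an even number of the planes, the zero vector in an odd number. -/
theorem count (hp : p ≠ 2) (v : Fin 3 → ZMod p) :
    Odd {i | v ∈ LinearMap.ker (fn (p := p) i)}.ncard ↔ v = 0 := by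
  have hodd : Odd p := (Fact.out : p.Prime).odd_of_ne_two hp
  have e1 : (Sum.inl ⁻¹' {i | v ∈ LinearMap.ker (fn (p := p) i)} : Set (ZMod p × ZMod p)) =
      {ab | v 0 + ab.1 * v 1 + ab.2 * v 2 = 0} := by
    ext ab
    simp [fn]
  have e2 : (Sum.inl ⁻¹' (Sum.inr ⁻¹' {i | v ∈ LinearMap.ker (fn (p := p) i)}) : Set (ZMod p)) =
      {a | v 1 + a * v 2 = 0} := by
    ext a
    simp [fn]
  have e3 : (Sum.inr ⁻¹' (Sum.inr ⁻¹' {i | v ∈ LinearMap.ker (fn (p := p) i)}) : Set Unit) =
      {_u | v 2 = 0} := by
    ext a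
    simp [fn]
  rw [ncard_sum, ncard_sum, e1, e2, e3]
  by_cases h2 : v 2 = 0
  · have f3 : ({_u | v 2 = 0} : Set Unit).ncard = 1 := by
      have : ({_u | v 2 = 0} : Set Unit) = Set.univ := by ext; simp [h2]
      rw [this, Set.ncard_univ]; simp
    by_cases h1 : v 1 = 0
    · have f2 : {a : ZMod p | v 1 + a * v 2 = 0}.ncard = p := by
        have : {a : ZMod p | v 1 + a * v 2 = 0} = Set.univ := by ext; simp [h1, h2]
        rw [this, Set.ncard_univ, Nat.card_zmod]
      by_cases h0 : v 0 = 0
      · have f1 : {ab : ZMod p × ZMod p | v 0 + ab.1 * v 1 + ab.2 * v 2 = 0}.ncard = p * p := by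
          have : {ab : ZMod p × ZMod p | v 0 + ab.1 * v 1 + ab.2 * v 2 = 0} = Set.univ := by
            ext; simp [h0, h1, h2]
          rw [this, Set.ncard_univ, Nat.card_prod, Nat.card_zmod]
        rw [f1, f2, f3]
        have hv : v = 0 := by
          ext i
          fin_cases i
          · simp [h0]
          · simp [h1]
          · simp [h2]
        simp only [hv, iff_true]
        have := hodd.mul hodd
        have h5 : Even (p + 1) := hodd.add_odd odd_one
        exact this.add_even h5
      · have f1 : {ab : ZMod p × ZMod p | v 0 + ab.1 * v 1 + ab.2 * v 2 = 0}.ncard = 0 := by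
          have : {ab : ZMod p × ZMod p | v 0 + ab.1 * v 1 + ab.2 * v 2 = 0} = ∅ := by
            ext; simp [h0, h1, h2]
          rw [this, Set.ncard_empty]
        rw [f1, f2, f3]
        have hv : v ≠ 0 := fun h => h0 (by simp [h])
        simp only [hv, iff_false, Nat.not_odd_iff_even, zero_add]
        exact hodd.add_odd odd_one
    · rw [c1 _ _ _ (Or.inl h1), f3]
      have f2 : {a : ZMod p | v 1 + a * v 2 = 0}.ncard = 0 := by
        have : {a : ZMod p | v 1 + a * v 2 = 0} = ∅ := by ext; simp [h1, h2]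
        rw [this, Set.ncard_empty]
      rw [f2]
      have hv : v ≠ 0 := fun h => h1 (by simp [h])
      simp only [hv, iff_false, Nat.not_odd_iff_even, zero_add]
      exact hodd.add_odd odd_one
  · rw [c1 _ _ _ (Or.inr h2), c2 _ _ h2]
    have f3 : ({_u | v 2 = 0} : Set Unit).ncard = 0 := by
      have : ({_u | v 2 = 0} : Set Unit) = ∅ := by ext; simp [h2]
      rw [this, Set.ncard_empty]
    rw [f3]
    have hv : v ≠ 0 := fun h => h2 (by simp [h])
    simp only [hv, iff_false, Nat.not_odd_iff_even, add_zero]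
    exact hodd.add_odd odd_one

end P0F
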