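import Pool.Agent.Lib.MP_0f5a55_nt.EX.Shifts
import Pool.Agent.Lib.MP_0f5a55_nt.EX.Planes

set_option autoImplicit false

/-!
# Arbitrary integer valued functions whose sum has a given parity
-/

open Filter

namespace P0F

/-- If an odd integer has the parity of a sum of integers, then one of them is odd. -/
theorem odd_of_sum {κ : Type*} [Fintype κ] (N : κ → ℤ) (a : ℕ) (ha : Odd a) (h : Even ((∑ i, N i) - (a : ℤ))) :
    ∃ i, Odd (N i) := by
  by_contra hcon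
  push Not at hcon
  have h1 : Even (∑ i, N i) := Finset.even_sum _ (fun i _ => Int.not_odd_iff_even.1 (hcon i))
  have h2 : Even (a : ℤ) := by
    have := h1.sub h
    simpa using this
  rw [Int.even_coe_nat] at h2
  exact (Nat.not_even_iff_odd.2 ha) h2

variable {P : Type*}

/-- Functions `N 1, ..., N k` whose sum has the parity of the multiplicities for one or two shifted characters. -/
theorem main_general {m : P → ℝ → ℕ} (hfin : ∀ (χ : P) (a b : ℝ), {g : ℝ | a ≤ g ∧ g ≤ b ∧ Odd (m χ g)}.Finite)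
    {c : ℝ} (hc : 0 < c)
    (H : ∀ (χ ψ : P) (a : ℝ), (χ ≠ ψ ∨ a ≠ 0) → ∃ T₀ : ℝ, 2 ≤ T₀ ∧ ∀ T : ℝ, T₀ ≤ T →
      c * (T * Real.log T) ≤ ({g : ℝ | 0 < g ∧ g ≤ T ∧ Odd (m χ g + m ψ (g + a))}.ncard : ℝ))
    (D : Finset (P × ℝ)) (h0 : D.Nonempty) (h2 : D.card ≤ 2) :
    ∃ T₀ : ℝ, 2 ≤ T₀ ∧ ∀ (κ : Type) [Fintype κ] (N : κ → ℝ → ℤ) (T : ℝ), T₀ ≤ T →
      (∀ g : ℝ, 0 < g → g ≤ T → Even ((∑ i, N i g) - ((∑ x ∈ D, m x.1 (g + x.2) : ℕ) : ℤ))) →
      (∀ i, {g : ℝ | 0 < g ∧ g ≤ T ∧ Odd (N i g)}.Finite) →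
        c / 16 * (T * Real.log T) ≤ ∑ i, ({g : ℝ | 0 < g ∧ g ≤ T ∧ Odd (N i g)}.ncard : ℝ) := by
  obtain ⟨T0, hT0, h⟩ := main_small hfin hc H D h0 h2
  refine ⟨T0, hT0, fun κ _ N T hT hN hf => ?_⟩
  refine (h T hT).trans ?_
  have h1 : Od m D T ⊆ ⋃ i, {g : ℝ | 0 < g ∧ g ≤ T ∧ Odd (N i g)} := by
    rintro g ⟨g0, gT, hg⟩
    obtain ⟨i, hi⟩ := odd_of_sum (fun i => N i g) _ hg (hN g g0 gT)
    exact Set.mem_iUnion.2 ⟨i, g0, gT, hi⟩
  have h3 : (Od m D T).ncard ≤ ∑ i, {g : ℝ | 0 < g ∧ g ≤ T ∧ Odd (N i g)}.ncard := by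
    refine (Set.ncard_le_ncard h1 (Set.finite_iUnion hf)).trans ?_
    classical
    have h4 : (⋃ i, {g : ℝ | 0 < g ∧ g ≤ T ∧ Odd (N i g)}) =
        ((Finset.univ.biUnion (fun i => (hf i).toFinset) : Finset ℝ) : Set ℝ) := by
      ext g
      simp
    rw [h4, Set.ncard_coe_finset]
    refine Finset.card_biUnion_le.trans (le_of_eq ?_)
    exact Finset.sum_congr rfl (fun i _ => (Set.ncard_eq_toFinset_card _ (hf i)).symm)
  exact_mod_cast h3

/-- For `p` odd, the sum over the `p² + p + 1` planes of the sums over the planes has the parity of the value at `0`. -/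
theorem planes_sum {p : ℕ} [Fact p.Prime] (hp : p ≠ 2) (f : (Fin 3 → ZMod p) → ℤ)
    (S : (ZMod p × ZMod p) ⊕ (ZMod p ⊕ Unit) → Finset (Fin 3 → ZMod p))
    (hS : ∀ i v, v ∈ S i ↔ v ∈ LinearMap.ker (fn (p := p) i)) :
    Even ((∑ i, ∑ v ∈ S i, f v) - f 0) := by
  classical
  have h1 : (∑ i, ∑ v ∈ S i, f v) = ∑ v, ({i | v ∈ LinearMap.ker (fn (p := p) i)}.ncard : ℤ) * f v := by
    have h2 : ∀ i, (∑ v ∈ S i, f v) = ∑ v, if v ∈ S i then f v else 0 := fun i => by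
      rw [Finset.sum_ite_mem, Finset.univ_inter]
    simp only [h2]
    rw [Finset.sum_comm]
    refine Finset.sum_congr rfl (fun v _ => ?_)
    rw [← Finset.sum_filter, Finset.sum_const, nsmul_eq_mul]
    congr 2
    rw [← Set.ncard_coe_finset]
    congr 1
    ext i
    simp only [Finset.coe_filter, Finset.mem_univ, true_and, Set.mem_ofPred_eq]
    exact hS i v
  have h3 : (∑ v, ({i | v ∈ LinearMap.ker (fn (p := p) i)}.ncard : ℤ) * f v) - f 0 =
      ∑ v, (({i | v ∈ LinearMap.ker (fn (p := p) i)}.ncard : ℤ) * f v - if v = 0 then f v else 0) := by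
    rw [Finset.sum_sub_distrib, Finset.sum_ite_eq' Finset.univ (0 : Fin 3 → ZMod p) f, if_pos (Finset.mem_univ _)]
  rw [h1, h3]
  refine Finset.even_sum _ (fun v _ => ?_)
  by_cases hv : v = 0
  · have h4 := (count hp v).2 hv
    rw [if_pos hv]
    have h5 : Even (({i | v ∈ LinearMap.ker (fn (p := p) i)}.ncard : ℤ) - 1) := by
      have h6 : Odd (({i | v ∈ LinearMap.ker (fn (p := p) i)}.ncard : ℤ)) := by exact_mod_cast h4
      exact h6.sub_odd odd_one
    have h7 := h5.mul_right (f v)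
    have e : (({i | v ∈ LinearMap.ker (fn (p := p) i)}.ncard : ℤ) - 1) * f v =
      ({i | v ∈ LinearMap.ker (fn (p := p) i)}.ncard : ℤ) * f v - f v := by ring
    rwa [e] at h7
  · rw [if_neg hv, sub_zero]
    have h4 : Even {i | v ∈ LinearMap.ker (fn (p := p) i)}.ncard := by
      rw [← Nat.not_odd_iff_even]
      exact fun h => hv ((count hp v).1 h)
    have h5 : Even (({i | v ∈ LinearMap.ker (fn (p := p) i)}.ncard : ℤ)) := by exact_mod_cast h4
    exact h5.mul_right _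

/-- The sum of an arbitrary function and of the multiplicities for one of two sets. -/
theorem odd_two {ι : Type*} (S S' : Finset ι) (f : ι → ℕ) (a : ℤ) {D : Finset ι}
    (hD : symmDiff (S : Set ι) (S' : Set ι) = (D : Set ι)) (h : Odd (∑ i ∈ D, f i)) :
    Odd (a + ((∑ i ∈ S, f i : ℕ) : ℤ)) ∨ Odd (a + ((∑ i ∈ S', f i : ℕ) : ℤ)) := by
  classical
  have hD' : D = (S ∪ S') \ (S ∩ S') := by
    apply Finset.coe_injective
    rw [← hD]
    ext x
    simp only [Set.mem_symmDiff, Finset.coe_sdiff, Finset.coe_union, Finset.coe_inter, Set.mem_sdiff, Set.mem_union,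
      Set.mem_inter_iff]
    tauto
  have h1 : (∑ i ∈ S ∪ S', f i) + ∑ i ∈ S ∩ S', f i = (∑ i ∈ S, f i) + ∑ i ∈ S', f i :=
    Finset.sum_union_inter
  have h3 : (∑ i ∈ (S ∪ S') \ (S ∩ S'), f i) + ∑ i ∈ S ∩ S', f i = ∑ i ∈ S ∪ S', f i :=
    Finset.sum_sdiff (Finset.inter_subset_left.trans Finset.subset_union_left)
  rw [← hD'] at h3
  by_contra hcon
  push Not at hcon
  obtain ⟨h4, h5⟩ := hcon
  rw [Int.not_odd_iff_even] at h4 h5
  have h6 : Even (((∑ i ∈ S, f i) + ∑ i ∈ S', f i : ℕ) : ℤ) := by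
    have := h4.add h5
    have e : a + ((∑ i ∈ S, f i : ℕ) : ℤ) + (a + ((∑ i ∈ S', f i : ℕ) : ℤ)) =
      (a + a) + (((∑ i ∈ S, f i) + ∑ i ∈ S', f i : ℕ) : ℤ) := by push_cast; ring
    rw [e] at this
    exact (Int.even_add.1 this).1 (Even.add_self a)
  rw [Int.even_coe_nat, ← h1, ← h3, add_assoc] at h6
  have h8 := (Nat.even_add.1 h6).2 (Even.add_self _)
  exact (Nat.not_even_iff_odd.2 h) h8

end P0F
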