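import Mathlib

set_option autoImplicit false

/-!
# Parity of sums over families of finite sets
-/

open Filter

namespace P0F

section Parity
variable {κ ι : Type*} [Fintype κ]

/-- If the sum of `f` over the elements lying in an odd number of the sets `S k` is odd, then the sum of `f` over one
of the sets `S k` is odd. -/
theorem odd_family (S : κ → Finset ι) (D : Finset ι) (hD : ∀ x, x ∈ D ↔ Odd {k | x ∈ S k}.ncard) (f : ι → ℕ)
    (h : Odd (∑ x ∈ D, f x)) : ∃ k, Odd (∑ x ∈ S k, f x) := by
  classical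
  by_contra hcon
  push Not at hcon
  have h0 : ∀ k, ((∑ x ∈ S k, f x : ℕ) : ZMod 2) = 0 := by
    intro k
    have := hcon k
    rw [Nat.not_odd_iff_even] at this
    exact (ZMod.natCast_eq_zero_iff_even).2 this
  have h1 : ((∑ x ∈ D, f x : ℕ) : ZMod 2) ≠ 0 := by
    intro h2
    exact (Nat.not_even_iff_odd.2 h) ((ZMod.natCast_eq_zero_iff_even).1 h2)
  apply h1
  set U : Finset ι := Finset.univ.biUnion S with hU
  have h2 : ∀ k, ((∑ x ∈ S k, f x : ℕ) : ZMod 2) = ∑ x ∈ U, if x ∈ S k then (f x : ZMod 2) else 0 := by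
    intro k
    rw [← Finset.sum_filter]
    have : U.filter (fun x => x ∈ S k) = S k := by
      ext x
      simp only [hU, Finset.mem_filter, Finset.mem_biUnion, Finset.mem_univ, true_and]
      exact ⟨fun hx => hx.2, fun hx => ⟨⟨k, hx⟩, hx⟩⟩
    rw [this, Nat.cast_sum]
  have h3 : (∑ k, ((∑ x ∈ S k, f x : ℕ) : ZMod 2)) = 0 := Finset.sum_eq_zero (fun k _ => h0 k)
  simp only [h2] at h3
  rw [Finset.sum_comm] at h3
  have h4 : ∀ x ∈ U, (∑ k, if x ∈ S k then (f x : ZMod 2) else 0) = if x ∈ D then (f x : ZMod 2) else 0 := by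
    intro x _
    rw [← Finset.sum_filter, Finset.sum_const, nsmul_eq_mul]
    have e : ((Finset.univ.filter (fun k => x ∈ S k)).card : ℕ) = {k | x ∈ S k}.ncard := by
      rw [← Set.ncard_coe_finset]
      congr 1
      ext k
      simp
    rw [e]
    by_cases hx : x ∈ D
    · have h5 := (hD x).1 hx
      rw [if_pos hx, (ZMod.natCast_eq_one_iff_odd).2 h5, one_mul]
    · have h5 : Even {k | x ∈ S k}.ncard := by
        rw [← Nat.not_odd_iff_even]
        exact fun h6 => hx ((hD x).2 h6)
      rw [if_neg hx, (ZMod.natCast_eq_zero_iff_even).2 h5, zero_mul]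
  rw [Finset.sum_congr rfl h4, ← Finset.sum_filter] at h3
  have h5 : U.filter (fun x => x ∈ D) = D := by
    ext x
    simp only [hU, Finset.mem_filter, Finset.mem_biUnion, Finset.mem_univ, true_and]
    refine ⟨fun hx => hx.2, fun hx => ⟨?_, hx⟩⟩
    have h6 := (hD x).1 hx
    by_contra h7
    push Not at h7
    have h8 : {k | x ∈ S k} = ∅ := by
      ext k
      simpa using h7 k
    rw [h8, Set.ncard_empty] at h6
    exact absurd h6 (by decide)
  rw [h5] at h3
  rw [Nat.cast_sum]
  exact h3

end Parity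

/-- `T log T` under a shift. -/
theorem ev_shift (s : ℝ) : ∀ᶠ T : ℝ in atTop, 1 / 2 * (T * Real.log T) ≤ (T + s) * Real.log (T + s) := by
  filter_upwards [eventually_ge_atTop (4 * |s| + 3)] with T hT
  have hs : 0 ≤ |s| := abs_nonneg s
  have h1 : -|s| ≤ s := neg_abs_le s
  have h2 : 3 / 4 * T ≤ T + s := by linarith
  have hT0 : (3 : ℝ) ≤ T := by linarith
  have h3 : Real.log (3 / 4 * T) ≤ Real.log (T + s) := Real.log_le_log (by positivity) h2
  have h4 : Real.log (3 / 4 * T) = Real.log (3 / 4) + Real.log T := Real.log_mul (by norm_num) (by positivity)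
  have h5 : Real.log (4 / 3) ≤ 1 / 3 * Real.log T := by
    have h6 : (3 : ℝ) * Real.log (4 / 3) = Real.log ((4 / 3) ^ 3) := by
      rw [Real.log_pow]; norm_num
    have h7 : Real.log ((4 / 3 : ℝ) ^ 3) ≤ Real.log T := Real.log_le_log (by norm_num) (by norm_num; linarith)
    linarith
  have h8 : Real.log (3 / 4) = -Real.log (4 / 3) := by
    rw [← Real.log_inv]; norm_num
  have h9 : 2 / 3 * Real.log T ≤ Real.log (T + s) := by linarith
  have h10 : 0 ≤ Real.log T := Real.log_nonneg (by linarith)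
  calc 1 / 2 * (T * Real.log T) = (3 / 4 * T) * (2 / 3 * Real.log T) := by ring
    _ ≤ (T + s) * Real.log (T + s) := mul_le_mul h2 h9 (by positivity) (by linarith)

theorem tendsto_TlogT : Tendsto (fun T : ℝ => T * Real.log T) atTop atTop :=
  tendsto_id.atTop_mul_atTop₀ Real.tendsto_log_atTop

end P0F
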