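import Pool.Agent.Lib.MP_0f5a55_nt.EX.Parity

set_option autoImplicit false

/-!
# From pairs to families of finite sets of shifted characters (abstract form)
-/

open Filter

namespace P0F

variable {P : Type*}

/-- The `g` in `(0, T]` at which the sum of the multiplicities is odd. -/
def Od (m : P → ℝ → ℕ) (A : Finset (P × ℝ)) (T : ℝ) : Set ℝ :=
  {g | 0 < g ∧ g ≤ T ∧ Odd (∑ x ∈ A, m x.1 (g + x.2))}

theorem Od_finite {m : P → ℝ → ℕ} (hfin : ∀ (χ : P) (a b : ℝ), {g : ℝ | a ≤ g ∧ g ≤ b ∧ Odd (m χ g)}.Finite)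
    (A : Finset (P × ℝ)) (T : ℝ) : (Od m A T).Finite := by
  have h1 : ∀ x : P × ℝ, {g : ℝ | 0 ≤ g ∧ g ≤ T ∧ Odd (m x.1 (g + x.2))}.Finite := by
    intro x
    refine ((hfin x.1 x.2 (T + x.2)).image (fun t => t - x.2)).subset ?_
    rintro g ⟨g0, gT, hg⟩
    exact ⟨g + x.2, ⟨by linarith, by linarith, hg⟩, by simp⟩
  refine ((A.finite_toSet).biUnion (fun x _ => h1 x)).subset ?_
  rintro g ⟨g0, gT, hg⟩
  by_contra hcon
  simp only [Set.mem_iUnion, not_exists] at hcon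
  refine (Nat.not_even_iff_odd.2 hg) (Finset.even_sum _ ?_)
  intro x hx
  by_contra h2
  exact hcon x hx ⟨g0.le, gT, Nat.not_even_iff_odd.1 h2⟩

/-- The pair theorem for two arbitrary shifts. -/
theorem pair_shift {m : P → ℝ → ℕ} (hfin : ∀ (χ : P) (a b : ℝ), {g : ℝ | a ≤ g ∧ g ≤ b ∧ Odd (m χ g)}.Finite)
    {c : ℝ} (hc : 0 < c)
    (H : ∀ (χ ψ : P) (a : ℝ), (χ ≠ ψ ∨ a ≠ 0) → ∃ T₀ : ℝ, 2 ≤ T₀ ∧ ∀ T : ℝ, T₀ ≤ T →
      c * (T * Real.log T) ≤ ({g : ℝ | 0 < g ∧ g ≤ T ∧ Odd (m χ g + m ψ (g + a))}.ncard : ℝ))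
    (x y : P × ℝ) (hxy : x ≠ y) :
    ∀ᶠ T : ℝ in atTop, c / 4 * (T * Real.log T) ≤
      ({g : ℝ | 0 < g ∧ g ≤ T ∧ Odd (m x.1 (g + x.2) + m y.1 (g + y.2))}.ncard : ℝ) := by
  classical
  have hne : x.1 ≠ y.1 ∨ y.2 - x.2 ≠ 0 := by
    by_contra hcon
    push Not at hcon
    exact hxy (Prod.ext hcon.1 (by linarith [hcon.2]))
  obtain ⟨T0, hT0, h⟩ := H x.1 y.1 (y.2 - x.2) hne
  -- the finitely many `g` below the shift
  have hbase : ∀ a b : ℝ, {g : ℝ | a ≤ g ∧ g ≤ b ∧ Odd (m x.1 g + m y.1 (g + (y.2 - x.2)))}.Finite := by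
    intro a b
    have h1 := hfin x.1 a b
    have h2 := (hfin y.1 (a + (y.2 - x.2)) (b + (y.2 - x.2))).image (fun t => t - (y.2 - x.2))
    refine (h1.union h2).subset ?_
    rintro g ⟨g0, gT, hg⟩
    by_cases h3 : Odd (m x.1 g)
    · exact Or.inl ⟨g0, gT, h3⟩
    · right
      have h4 : Odd (m y.1 (g + (y.2 - x.2))) := by
        rw [Nat.odd_add] at hg
        exact Nat.not_even_iff_odd.1 (fun h5 => h3 (hg.2 h5))
      exact ⟨g + (y.2 - x.2), ⟨by linarith, by linarith, h4⟩, by simp⟩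
  set C : Set ℝ := {g : ℝ | 0 ≤ g ∧ g ≤ |x.2| ∧ Odd (m x.1 g + m y.1 (g + (y.2 - x.2)))} with hC
  have hCfin : C.Finite := hbase _ _
  have e1 := ev_shift x.2
  have e2 : ∀ᶠ T : ℝ in atTop, (4 / c) * (C.ncard : ℝ) ≤ T * Real.log T :=
    tendsto_TlogT.eventually_ge_atTop _
  filter_upwards [e1, e2, eventually_ge_atTop (T0 + |x.2|)] with T h1 h2 h3
  have hs : 0 ≤ |x.2| := abs_nonneg _
  have hs1 : -|x.2| ≤ x.2 := neg_abs_le _
  have h4 := h (T + x.2) (by linarith)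
  set B : Set ℝ := {g : ℝ | 0 < g ∧ g ≤ T + x.2 ∧ Odd (m x.1 g + m y.1 (g + (y.2 - x.2)))} with hB
  set R : Set ℝ := {g : ℝ | 0 < g ∧ g ≤ T ∧ Odd (m x.1 (g + x.2) + m y.1 (g + y.2))} with hR
  have hRfin : R.Finite := by
    refine ((hbase x.2 (T + x.2)).image (fun t => t - x.2)).subset ?_
    rintro g ⟨g0, gT, hg⟩
    refine ⟨g + x.2, ⟨by linarith, by linarith, ?_⟩, by simp⟩
    have e : g + x.2 + (y.2 - x.2) = g + y.2 := by ring
    rw [e]
    exact hg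
  have h5 : B ⊆ ((fun t => t + x.2) '' R) ∪ C := by
    rintro g ⟨g0, gT, hg⟩
    by_cases h6 : g ≤ x.2
    · right
      exact ⟨g0.le, h6.trans (le_abs_self _), hg⟩
    · left
      push Not at h6
      refine ⟨g - x.2, ⟨by linarith, by linarith, ?_⟩, by simp⟩
      have e : g - x.2 + x.2 = g := by ring
      have e' : g - x.2 + y.2 = g + (y.2 - x.2) := by ring
      rw [e, e']
      exact hg
  have h6 : B.ncard ≤ R.ncard + C.ncard := by
    refine (Set.ncard_le_ncard h5 ((hRfin.image _).union hCfin)).trans ?_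
    refine (Set.ncard_union_le _ _).trans ?_
    exact Nat.add_le_add_right (Set.ncard_image_le hRfin) _
  have h7 : (B.ncard : ℝ) ≤ (R.ncard : ℝ) + C.ncard := by exact_mod_cast h6
  have h8 : (C.ncard : ℝ) ≤ c / 4 * (T * Real.log T) := by
    have := mul_le_mul_of_nonneg_left h2 (by positivity : (0 : ℝ) ≤ c / 4)
    have e : c / 4 * ((4 / c) * (C.ncard : ℝ)) = C.ncard := by field_simp
    linarith
  have h9 : c * (1 / 2 * (T * Real.log T)) ≤ c * ((T + x.2) * Real.log (T + x.2)) :=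
    mul_le_mul_of_nonneg_left h1 hc.le
  linarith

/-- One or two pairs. -/
theorem main_small {m : P → ℝ → ℕ} (hfin : ∀ (χ : P) (a b : ℝ), {g : ℝ | a ≤ g ∧ g ≤ b ∧ Odd (m χ g)}.Finite)
    {c : ℝ} (hc : 0 < c)
    (H : ∀ (χ ψ : P) (a : ℝ), (χ ≠ ψ ∨ a ≠ 0) → ∃ T₀ : ℝ, 2 ≤ T₀ ∧ ∀ T : ℝ, T₀ ≤ T →
      c * (T * Real.log T) ≤ ({g : ℝ | 0 < g ∧ g ≤ T ∧ Odd (m χ g + m ψ (g + a))}.ncard : ℝ))
    (D : Finset (P × ℝ)) (h0 : D.Nonempty) (h2 : D.card ≤ 2) :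
    ∃ T₀ : ℝ, 2 ≤ T₀ ∧ ∀ T : ℝ, T₀ ≤ T → c / 16 * (T * Real.log T) ≤ ((Od m D T).ncard : ℝ) := by
  classical
  suffices hev : ∀ᶠ T : ℝ in atTop, c / 16 * (T * Real.log T) ≤ ((Od m D T).ncard : ℝ) by
    obtain ⟨T1, hT1⟩ := eventually_atTop.1 hev
    exact ⟨max 2 T1, le_max_left _ _, fun T hT => hT1 T ((le_max_right _ _).trans hT)⟩
  have hpos := h0.card_pos
  obtain h | h : D.card = 1 ∨ D.card = 2 := by omega
  · obtain ⟨x, rfl⟩ := Finset.card_eq_one.1 h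
    have hne : x ≠ (x.1, x.2 + 1) := by
      intro h3
      have := congrArg Prod.snd h3
      simp at this
    have h4 := pair_shift hfin hc H x (x.1, x.2 + 1) hne
    have h5 := ev_shift (-1)
    filter_upwards [(tendsto_atTop_add_const_right atTop (-1 : ℝ) tendsto_id).eventually h4, h5,
      eventually_ge_atTop 3] with T h6 h7 h8
    simp only [id_eq] at h6
    set R : Set ℝ := {g : ℝ | 0 < g ∧ g ≤ T + -1 ∧ Odd (m x.1 (g + x.2) + m x.1 (g + (x.2 + 1)))} with hR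
    set O : Set ℝ := Od m {x} T with hO
    have hOfin : O.Finite := Od_finite hfin _ _
    have h9 : R ⊆ O ∪ ((fun t => t - 1) '' O) := by
      rintro g ⟨g0, gT, hg⟩
      by_cases h10 : Odd (m x.1 (g + x.2))
      · left
        refine ⟨g0, by linarith, ?_⟩
        simpa using h10
      · right
        have h11 : Odd (m x.1 (g + (x.2 + 1))) := by
          rw [Nat.odd_add] at hg
          exact Nat.not_even_iff_odd.1 (fun h12 => h10 (hg.2 h12))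
        refine ⟨g + 1, ⟨by linarith, by linarith, ?_⟩, by simp⟩
        have e : g + 1 + x.2 = g + (x.2 + 1) := by ring
        simpa [e] using h11
    have h10 : R.ncard ≤ O.ncard + O.ncard := by
      refine (Set.ncard_le_ncard h9 (hOfin.union (hOfin.image _))).trans ?_
      refine (Set.ncard_union_le _ _).trans ?_
      exact Nat.add_le_add_left (Set.ncard_image_le hOfin) _
    have h11 : (R.ncard : ℝ) ≤ (O.ncard : ℝ) + O.ncard := by exact_mod_cast h10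
    have h12 : c / 4 * (1 / 2 * (T * Real.log T)) ≤ c / 4 * ((T + -1) * Real.log (T + -1)) :=
      mul_le_mul_of_nonneg_left h7 (by positivity)
    linarith
  · obtain ⟨x, y, hxy, rfl⟩ := Finset.card_eq_two.1 h
    filter_upwards [pair_shift hfin hc H x y hxy, eventually_ge_atTop 3] with T h3 h4
    have e : Od m {x, y} T = {g : ℝ | 0 < g ∧ g ≤ T ∧ Odd (m x.1 (g + x.2) + m y.1 (g + y.2))} := by
      unfold Od
      ext g
      simp only [Set.mem_ofPred_eq, Finset.sum_pair hxy]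
    rw [e]
    have h5 : 0 ≤ T * Real.log T := mul_nonneg (by linarith) (Real.log_nonneg (by linarith))
    nlinarith [mul_nonneg hc.le h5]

/-- Families of finite sets of shifted characters. -/
theorem main_family {m : P → ℝ → ℕ} (hfin : ∀ (χ : P) (a b : ℝ), {g : ℝ | a ≤ g ∧ g ≤ b ∧ Odd (m χ g)}.Finite)
    {c : ℝ} (hc : 0 < c)
    (H : ∀ (χ ψ : P) (a : ℝ), (χ ≠ ψ ∨ a ≠ 0) → ∃ T₀ : ℝ, 2 ≤ T₀ ∧ ∀ T : ℝ, T₀ ≤ T →
      c * (T * Real.log T) ≤ ({g : ℝ | 0 < g ∧ g ≤ T ∧ Odd (m χ g + m ψ (g + a))}.ncard : ℝ))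
    (D : Finset (P × ℝ)) (h0 : D.Nonempty) (h2 : D.card ≤ 2) :
    ∃ T₀ : ℝ, 2 ≤ T₀ ∧ ∀ (n : ℕ) (A : Fin n → Finset (P × ℝ)), (∀ x, x ∈ D ↔ Odd {i | x ∈ A i}.ncard) →
      ∀ T : ℝ, T₀ ≤ T → (∀ i, (Od m (A i) T).Finite) ∧
        c / 16 * (T * Real.log T) ≤ ∑ i, ((Od m (A i) T).ncard : ℝ) := by
  obtain ⟨T0, hT0, h⟩ := main_small hfin hc H D h0 h2
  refine ⟨T0, hT0, fun n A hA T hT => ⟨fun i => Od_finite hfin _ _, ?_⟩⟩
  refine (h T hT).trans ?_
  have h1 : Od m D T ⊆ ⋃ i, Od m (A i) T := by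
    rintro g ⟨g0, gT, hg⟩
    obtain ⟨k, hk⟩ := odd_family A D hA (fun x => m x.1 (g + x.2)) hg
    exact Set.mem_iUnion.2 ⟨k, g0, gT, hk⟩
  have h3 : (Od m D T).ncard ≤ ∑ i, (Od m (A i) T).ncard := by
    refine (Set.ncard_le_ncard h1 (Set.finite_iUnion (fun i => Od_finite hfin _ _))).trans ?_
    classical
    have hf := fun i => Od_finite hfin (A i) T
    have h4 : (⋃ i, Od m (A i) T) = ((Finset.univ.biUnion (fun i => (hf i).toFinset) : Finset ℝ) : Set ℝ) := by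
      ext g
      simp
    rw [h4, Set.ncard_coe_finset]
    refine Finset.card_biUnion_le.trans (le_of_eq ?_)
    exact Finset.sum_congr rfl (fun i _ => (Set.ncard_eq_toFinset_card _ (hf i)).symm)
  exact_mod_cast h3

end P0F
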