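import Mathlib
import Pool.Agent.Lib.MP_0f5a55_nt.OM.K056
import Pool.Agent.Lib.MP_0f5a55_nt.TT.T26
import Pool.Agent.Lib.MP_0f5a55_nt.RQ.FIN
import Pool.Agent.Lib.MP_0f5a55_nt.EX.General

set_option autoImplicit false

/-!
# Sets of at most four primitive Dirichlet characters, and the sets which have only finitely many odd values
-/

open Complex

namespace P0F

/-- Primitive Dirichlet characters of all moduli (`n + 1` is the modulus). -/
def Prim : Type := {χ : (Σ n : ℕ, DirichletCharacter ℂ (n + 1)) // χ.2.IsPrimitive}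

/-- The Dirichlet L-function (for modulus 1 the Riemann zeta function). -/
noncomputable def L (χ : Prim) (s : ℂ) : ℂ := DirichletCharacter.LFunction χ.1.2 s

/-- The multiplicity of `1/2 + ig` as a zero of `L(s, χ)` (`0` if it is not a zero). -/
noncomputable def mult (χ : Prim) (g : ℝ) : ℕ := analyticOrderNatAt (L χ) (1/2 + g * I)

theorem ne12 {χ ψ : Prim} (h : χ ≠ ψ) : OO.Ne12 χ.1.2 ψ.1.2 := by
  refine OO.ne12_of_prim χ.2 ψ.2 ?_
  intro h'
  apply h
  rcases χ with ⟨⟨n, x⟩, hx⟩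
  rcases ψ with ⟨⟨m, b⟩, hb⟩
  exact Subtype.ext h'

/-- At most one of two different primitive characters has modulus 1. -/
theorem modulus {χ ψ : Prim} (h : χ ≠ ψ) (h0 : χ.1.1 = 0) : 1 < ψ.1.1 + 1 := by
  by_contra hcon
  apply h
  rcases χ with ⟨⟨n, x⟩, hx⟩
  rcases ψ with ⟨⟨m, b⟩, hb⟩
  simp only at h0 hcon
  have hm : m = 0 := by omega
  subst h0 hm
  refine Subtype.ext ?_
  have : x = b := by
    rw [DirichletCharacter.level_one x, DirichletCharacter.level_one b]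
  subst this
  rfl

/-- Two characters and a shift: infinitely many odd sums. -/
theorem pair (χ ψ : Prim) (a : ℝ) (h : χ ≠ ψ ∨ a ≠ 0) :
    {g : ℝ | 0 < g ∧ Odd (mult χ g + mult ψ (g + a))}.Infinite := by
  obtain ⟨c, hc, H⟩ := OO.odd_main_abs3
  have h12 : OO.Ne12 χ.1.2 ψ.1.2 ∨ a ≠ 0 := by
    rcases h with h | h
    · exact Or.inl (ne12 h)
    · exact Or.inr h
  obtain ⟨T0, hT0, hT⟩ := H _ _ χ.1.2 ψ.1.2 a χ.2 ψ.2 h12
  intro hfin
  set S : Set ℝ := {g : ℝ | 0 < g ∧ Odd (mult χ g + mult ψ (g + a))} with hS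
  have h1 : ∀ T : ℝ, T0 ≤ T → c * (T * Real.log T) ≤ (S.ncard : ℝ) := by
    intro T hT1
    refine (hT T hT1).2.trans ?_
    have hsub : {g : ℝ | 0 < g ∧ g ≤ T ∧ Odd (analyticOrderNatAt (LX.Lf χ.1.2) (1 / 2 + g * I) +
        analyticOrderNatAt (LX.Lf ψ.1.2) (1 / 2 + (g + a : ℝ) * I))} ⊆ S := fun g hg => ⟨hg.1, hg.2.2⟩
    exact_mod_cast Set.ncard_le_ncard hsub hfin
  have h2 : Filter.Tendsto (fun T : ℝ => c * (T * Real.log T)) Filter.atTop Filter.atTop :=
    (Filter.tendsto_id.atTop_mul_atTop₀ Real.tendsto_log_atTop).const_mul_atTop hc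
  obtain ⟨T, hT2⟩ := ((h2.eventually_gt_atTop (S.ncard : ℝ)).and (Filter.eventually_ge_atTop T0)).exists
  exact absurd (h1 T hT2.2) (not_le.2 hT2.1)

/-- One character (Hardy's theorem, with odd order). -/
theorem one (χ : Prim) : {g : ℝ | 0 < g ∧ Odd (mult χ g)}.Infinite := by
  intro hfin
  apply pair χ χ 1 (Or.inr one_ne_zero)
  have hfin2 : ((fun g : ℝ => g - 1) '' {g : ℝ | 0 < g ∧ Odd (mult χ g)}).Finite := hfin.image _
  refine (hfin.union hfin2).subset ?_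
  rintro g ⟨g0, hg⟩
  by_cases h : Odd (mult χ g)
  · exact Or.inl ⟨g0, h⟩
  · right
    refine ⟨g + 1, ⟨by linarith, ?_⟩, by simp⟩
    have h3 := Nat.odd_add.1 hg
    exact Nat.not_even_iff_odd.1 (fun he => h (h3.2 he))

/-- Two characters. -/
theorem two (χ₁ χ₂ : Prim) (h12 : χ₁ ≠ χ₂) : {g : ℝ | 0 < g ∧ Odd (mult χ₁ g + mult χ₂ g)}.Infinite := by
  have h := pair χ₁ χ₂ 0 (Or.inl h12)
  simpa only [add_zero] using h

theorem step (χ₁ χ₂ χ₃ : Prim) (h12 : χ₁ ≠ χ₂) (h13 : χ₁ ≠ χ₃) (g2 : 1 < χ₂.1.1 + 1)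
    (g3 : 1 < χ₃.1.1 + 1) : {g : ℝ | 0 < g ∧ Odd (mult χ₁ g + mult χ₂ g + mult χ₃ g)}.Infinite :=
  TT.odd3_main χ₁.2 χ₂.2 χ₃.2 (ne12 h12) (ne12 h13) g2 g3

/-- Three characters. -/
theorem three (χ₁ χ₂ χ₃ : Prim) (h12 : χ₁ ≠ χ₂) (h13 : χ₁ ≠ χ₃) (h23 : χ₂ ≠ χ₃) :
    {g : ℝ | 0 < g ∧ Odd (mult χ₁ g + mult χ₂ g + mult χ₃ g)}.Infinite := by
  by_cases e2 : χ₂.1.1 = 0
  · have h := step χ₂ χ₁ χ₃ (Ne.symm h12) h23 (modulus (Ne.symm h12) e2) (modulus h23 e2)
    refine h.mono (fun g hg => ⟨hg.1, ?_⟩)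
    have h' := hg.2
    rwa [add_comm (mult χ₂ g)] at h'
  by_cases e3 : χ₃.1.1 = 0
  · have h := step χ₃ χ₂ χ₁ (Ne.symm h23) (Ne.symm h13) (modulus (Ne.symm h23) e3) (modulus (Ne.symm h13) e3)
    refine h.mono (fun g hg => ⟨hg.1, ?_⟩)
    have h' := hg.2
    have e : mult χ₃ g + mult χ₂ g + mult χ₁ g = mult χ₁ g + mult χ₂ g + mult χ₃ g := by ring
    rwa [e] at h'
  · exact step χ₁ χ₂ χ₃ h12 h13 (by omega) (by omega)

/-- Four characters. -/
theorem four (χ₁ χ₂ χ₃ χ₄ : Prim) (h12 : χ₁ ≠ χ₂) (h13 : χ₁ ≠ χ₃) (h14 : χ₁ ≠ χ₄) (h23 : χ₂ ≠ χ₃)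
    (h24 : χ₂ ≠ χ₄) (h34 : χ₃ ≠ χ₄) :
    {g : ℝ | 0 < g ∧ Odd (mult χ₁ g + mult χ₂ g + mult χ₃ g + mult χ₄ g)}.Infinite :=
  RQ.odd4_all χ₁.2 χ₂.2 χ₃.2 χ₄.2 (ne12 h12) (ne12 h13) (ne12 h14) (ne12 h23) (ne12 h24) (ne12 h34)

/-- For every nonempty set of at most four primitive Dirichlet characters there are infinitely many `g > 0` at which the
sum of the multiplicities of `1/2 + ig` as a zero of their L-functions is odd. -/
theorem small (S : Finset Prim) (h0 : S.Nonempty) (h4 : S.card ≤ 4) :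
    {g : ℝ | 0 < g ∧ Odd (∑ χ ∈ S, mult χ g)}.Infinite := by
  classical
  have hpos := h0.card_pos
  obtain h | h | h | h : S.card = 1 ∨ S.card = 2 ∨ S.card = 3 ∨ S.card = 4 := by omega
  · obtain ⟨a, rfl⟩ := Finset.card_eq_one.1 h
    simpa only [Finset.sum_singleton] using one a
  · obtain ⟨a, b, hab, rfl⟩ := Finset.card_eq_two.1 h
    refine (two a b hab).mono (fun g hg => ⟨hg.1, ?_⟩)
    rw [Finset.sum_pair hab]
    exact hg.2
  · obtain ⟨a, b, c, hab, hac, hbc, rfl⟩ := Finset.card_eq_three.1 h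
    refine (three a b c hab hac hbc).mono (fun g hg => ⟨hg.1, ?_⟩)
    rw [Finset.sum_insert (by simp [hab, hac]), Finset.sum_pair hbc, ← add_assoc]
    exact hg.2
  · obtain ⟨a, t, hat, rfl, ht⟩ := Finset.card_eq_succ.1 h
    obtain ⟨b, c, d, hbc, hbd, hcd, rfl⟩ := Finset.card_eq_three.1 ht
    have h1 : a ≠ b ∧ a ≠ c ∧ a ≠ d := by simpa using hat
    refine (four a b c d h1.1 h1.2.1 h1.2.2 hbc hbd hcd).mono (fun g hg => ⟨hg.1, ?_⟩)
    rw [Finset.sum_insert hat, Finset.sum_insert (by simp [hbc, hbd]), Finset.sum_pair hcd, ← add_assoc,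
      ← add_assoc]
    exact hg.2

/-- Two different finite sets of characters which differ in at most four characters, and an arbitrary function. -/
theorem two_sets (n : ℝ → ℤ) (S S' : Finset Prim) (hne : S ≠ S')
    (h4 : (symmDiff (S : Set Prim) (S' : Set Prim)).ncard ≤ 4) :
    {g : ℝ | 0 < g ∧ Odd (n g + ∑ χ ∈ S, (mult χ g : ℤ))}.Infinite ∨
      {g : ℝ | 0 < g ∧ Odd (n g + ∑ χ ∈ S', (mult χ g : ℤ))}.Infinite := by
  classical
  have hDf : (symmDiff (S : Set Prim) (S' : Set Prim)).Finite := S.finite_toSet.symmDiff S'.finite_toSet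
  set D : Finset Prim := hDf.toFinset with hD
  have hDc : symmDiff (S : Set Prim) (S' : Set Prim) = (D : Set Prim) := by simp [hD]
  have h0 : D.Nonempty := by
    rw [Finset.nonempty_iff_ne_empty]
    intro h
    rw [h, Finset.coe_empty] at hDc
    apply hne
    have := symmDiff_eq_bot.1 hDc
    exact_mod_cast this
  have hc : D.card ≤ 4 := by
    rw [hDc, Set.ncard_coe_finset] at h4
    exact h4
  by_contra hcon
  push Not at hcon
  refine small D h0 hc ((hcon.1.union hcon.2).subset ?_)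
  rintro g ⟨g0, hg⟩
  rcases odd_two S S' (fun χ => mult χ g) (n g) hDc hg with h | h
  · left
    exact ⟨g0, by push_cast at h; exact h⟩
  · right
    exact ⟨g0, by push_cast at h; exact h⟩

/-- A finite set of characters is exceptional if the total multiplicity is odd for finitely many `g > 0` only. -/
def Exc (S : Finset Prim) : Prop := {g : ℝ | 0 < g ∧ Odd (∑ χ ∈ S, mult χ g)}.Finite

theorem exc_empty : Exc ∅ := by
  unfold Exc
  simp

/-- A nonempty exceptional set has at least five elements. -/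
theorem Exc.five_le {S : Finset Prim} (h : Exc S) (h0 : S.Nonempty) : 5 ≤ S.card := by
  by_contra hcon
  exact small S h0 (by omega) h

/-- The symmetric difference of two exceptional sets is exceptional. -/
theorem Exc.symmDiff {S S' D : Finset Prim} (h : Exc S) (h' : Exc S')
    (hD : ∀ χ, χ ∈ D ↔ (χ ∈ S ∧ χ ∉ S') ∨ (χ ∈ S' ∧ χ ∉ S)) : Exc D := by
  have hD' : _root_.symmDiff (S : Set Prim) (S' : Set Prim) = (D : Set Prim) := by
    ext χ
    rw [Set.mem_symmDiff]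
    simp only [Finset.mem_coe]
    exact (hD χ).symm
  refine (h.union h').subset ?_
  rintro g ⟨g0, hg⟩
  rcases odd_two S S' (fun χ => mult χ g) 0 hD' hg with h | h
  · left
    refine ⟨g0, ?_⟩
    rwa [zero_add, Int.odd_coe_nat] at h
  · right
    refine ⟨g0, ?_⟩
    rwa [zero_add, Int.odd_coe_nat] at h

/-- The set of the characters which lie in an odd number of the sets of a family of exceptional sets is exceptional. -/
theorem exc_family {n : ℕ} (S : Fin n → Finset Prim) (D : Finset Prim)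
    (hD : ∀ χ, χ ∈ D ↔ Odd {i | χ ∈ S i}.ncard) (h : ∀ i, Exc (S i)) : Exc D := by
  refine (Set.finite_iUnion (fun i => h i)).subset ?_
  rintro g ⟨g0, hg⟩
  obtain ⟨k, hk⟩ := odd_family S D hD (fun χ => mult χ g) hg
  exact Set.mem_iUnion.2 ⟨k, g0, hk⟩

end P0F
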